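import Pool.Agent.Helper805.Nuc.Tens

/-! Formal nonassociative polynomials in odd variables, and the check that an integer combination of
consequences of super-alternativity is a given polynomial. -/

set_option autoImplicit false

namespace Q12.AltTor

open Pool.Agent.Helper805.Nuc.Tens

/-- nonassociative monomials with leaves labelled by numbers -/
inductive T : Type
  | g (i : ℕ) : T
  | n (l r : T) : T

namespace T

/-- equality test -/
def beq : T → T → Bool
  | g i, g j => Nat.beq i j
  | n a b, n c d => and (beq a c) (beq b d)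
  | g _, n _ _ => false
  | n _ _, g _ => false

theorem eq_of_beq : ∀ {s t : T}, beq s t = true → s = t
  | g i, g j, h => by
      have : i = j := Nat.eq_of_beq_eq_true h
      rw [this]
  | n a b, n c d, h => by
      have h' : (beq a c && beq b d) = true := h
      rw [Bool.and_eq_true] at h'
      rw [eq_of_beq h'.1, eq_of_beq h'.2]
  | g _, n _ _, h => by exact absurd h (by simp [beq])
  | n _ _, g _, h => by exact absurd h (by simp [beq])

/-- number of leaves -/
def deg : T → ℕ
  | g _ => 1
  | n a b => deg a + deg b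

/-- hash -/
def key : T → ℕ
  | g i => i + 1
  | n a b => Nat.mod (Nat.add (Nat.add (Nat.mul (key a) 31) (Nat.mul (key b) 7)) 5) 4093

section ev
variable {R : Type} [NonUnitalNonAssocRing R]

/-- evaluation -/
def ev (v : ℕ → R) : T → R
  | g i => v i
  | n a b => ev v a * ev v b

end ev
end T

open T

section
variable {R : Type} [NonUnitalNonAssocRing R] (v : ℕ → R)

/-- value of a list of coefficients and monomials -/
def evL (L : List (ℤ × T)) : R := (L.map fun p => p.1 • ev v p.2).sum

lemma evL_nil : evL v [] = 0 := rfl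

lemma evL_cons (p : ℤ × T) (L : List (ℤ × T)) : evL v (p :: L) = p.1 • ev v p.2 + evL v L := by
  simp [evL]

lemma evL_append (L M : List (ℤ × T)) : evL v (L ++ M) = evL v L + evL v M := by
  simp [evL]

/-- insertion in a bucket -/
def insL (t : T) (c : ℤ) : List (ℤ × T) → List (ℤ × T)
  | [] => [(c, t)]
  | p :: L => cond (beq p.2 t) ((Int.add p.1 c, p.2) :: L) (p :: insL t c L)

lemma evL_insL (t : T) (c : ℤ) (L : List (ℤ × T)) : evL v (insL t c L) = evL v L + c • ev v t := by
  induction L with
  | nil => simp [insL, evL]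
  | cons p L ih =>
    rw [insL]
    cases h : beq p.2 t with
    | true =>
      have h2 := eq_of_beq h
      show evL v ((Int.add p.1 c, p.2) :: L) = _
      rw [evL_cons, evL_cons]
      show (p.1 + c) • ev v p.2 + evL v L = _
      rw [h2, add_smul]; abel
    | false =>
      show evL v (p :: insL t c L) = _
      rw [evL_cons, evL_cons, ih]; abel

/-- binary tries of buckets -/
inductive Tri : Type
  | nil : Tri
  | lf (L : List (ℤ × T)) : Tri
  | nd (a b : Tri) : Tri

/-- value of a trie -/
def evB : Tri → R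
  | Tri.nil => 0
  | Tri.lf L => evL v L
  | Tri.nd a b => evB a + evB b

/-- insertion -/
def ins (t : T) (c : ℤ) : ℕ → ℕ → Tri → Tri
  | 0, _, Tri.nil => Tri.lf [(c, t)]
  | 0, _, Tri.lf L => Tri.lf (insL t c L)
  | 0, _, Tri.nd a b => Tri.nd (Tri.nd a b) (Tri.lf [(c, t)])
  | d + 1, k, Tri.nil => cond (Nat.beq (Nat.mod k 2) 0) (Tri.nd (ins t c d (Nat.div k 2) Tri.nil) Tri.nil)
      (Tri.nd Tri.nil (ins t c d (Nat.div k 2) Tri.nil))
  | _ + 1, _, Tri.lf L => Tri.lf (insL t c L)
  | d + 1, k, Tri.nd a b => cond (Nat.beq (Nat.mod k 2) 0) (Tri.nd (ins t c d (Nat.div k 2) a) b)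
      (Tri.nd a (ins t c d (Nat.div k 2) b))

lemma evB_ins (t : T) (c : ℤ) (d : ℕ) : ∀ (k : ℕ) (B : Tri), evB v (ins t c d k B) = evB v B + c • ev v t := by
  induction d with
  | zero =>
    intro k B
    cases B with
    | nil => simp [ins, evB, evL]
    | lf L => simp [ins, evB, evL_insL]
    | nd a b => simp [ins, evB, evL]
  | succ d ih =>
    intro k B
    cases B with
    | nil =>
      rw [ins]
      cases Nat.beq (Nat.mod k 2) 0
      · simp [evB, ih]
      · simp [evB, ih]
    | lf L => simp [ins, evB, evL_insL]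
    | nd a b =>
      rw [ins]
      cases Nat.beq (Nat.mod k 2) 0
      · simp only [cond_false, evB, ih]; abel
      · simp only [cond_true, evB, ih]; abel

/-- all coefficients vanish -/
def zeroL : List (ℤ × T) → Bool
  | [] => true
  | p :: L => cond (decide (p.1 = 0)) (zeroL L) false

lemma evL_zero {L : List (ℤ × T)} (h : zeroL L = true) : evL v L = 0 := by
  induction L with
  | nil => rfl
  | cons p L ih =>
    rw [zeroL] at h
    by_cases h0 : p.1 = 0
    · simp only [h0, decide_true, cond_true] at h
      rw [evL_cons, h0, zero_smul, ih h, add_zero]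
    · simp [h0] at h

/-- all coefficients vanish -/
def zeroB : Tri → Bool
  | Tri.nil => true
  | Tri.lf L => zeroL L
  | Tri.nd a b => cond (zeroB a) (zeroB b) false

lemma evB_zero : ∀ {B : Tri}, zeroB B = true → evB v B = 0
  | Tri.nil, _ => rfl
  | Tri.lf _, h => evL_zero v h
  | Tri.nd a b, h => by
      rw [zeroB] at h
      cases ha : zeroB a with
      | false => rw [ha] at h; simp at h
      | true =>
        rw [ha] at h
        show evB v a + evB v b = 0
        rw [evB_zero ha, evB_zero (by simpa using h), add_zero]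

/-- insertion of a list, with a common factor -/
def insAll (m : ℤ) : List (ℤ × T) → Tri → Tri
  | [], B => B
  | p :: L, B => insAll m L (ins p.2 (Int.mul m p.1) 9 (key p.2) B)

lemma evB_insAll (m : ℤ) (L : List (ℤ × T)) : ∀ B : Tri, evB v (insAll m L B) = evB v B + m • evL v L := by
  induction L with
  | nil => intro B; simp [insAll, evL]
  | cons p L ih =>
    intro B
    rw [insAll, ih, evB_ins, evL_cons, smul_add, smul_smul]
    show evB v B + (m * p.1) • ev v p.2 + m • evL v L = _
    abel

/-- a consequence of super-alternativity: a multiple of an elementary relation in a context -/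
structure It : Type where
  /-- `true` for the left, `false` for the right alternative law -/
  k : Bool
  /-- first argument -/
  a : T
  /-- second argument -/
  b : T
  /-- third argument -/
  c : T
  /-- context: `(true, t)` is multiplication by `t` on the left, `(false, t)` on the right -/
  ctx : List (Bool × T)
  /-- coefficient -/
  s : ℤ

/-- put a monomial in a context -/
def wrap : List (Bool × T) → T → T
  | [], t => t
  | p :: C, t => wrap C (cond p.1 (T.n p.2 t) (T.n t p.2))

/-- put an element in a context -/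
def wrapR : List (Bool × T) → R → R
  | [], x => x
  | p :: C, x => wrapR C (cond p.1 (ev v p.2 * x) (x * ev v p.2))

lemma ev_wrap (C : List (Bool × T)) : ∀ t : T, ev v (wrap C t) = wrapR v C (ev v t) := by
  induction C with
  | nil => intro t; rfl
  | cons p C ih =>
    intro t
    rw [wrap, ih, wrapR]
    cases p.1 <;> rfl

lemma wrapR_add (C : List (Bool × T)) : ∀ x y : R, wrapR v C (x + y) = wrapR v C x + wrapR v C y := by
  induction C with
  | nil => intro x y; rfl
  | cons p C ih =>
    intro x y
    rw [wrapR, wrapR, wrapR, ← ih]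
    cases p.1
    · simp [add_mul]
    · simp [mul_add]

lemma wrapR_zero (C : List (Bool × T)) : wrapR v C (0 : R) = 0 := by
  have h := wrapR_add v C 0 0
  rw [add_zero] at h
  exact left_eq_add.mp h

lemma wrapR_neg (C : List (Bool × T)) (x : R) : wrapR v C (-x) = - wrapR v C x := by
  have h := wrapR_add v C x (-x)
  rw [add_neg_cancel, wrapR_zero] at h
  exact (neg_eq_of_add_eq_zero_right h.symm).symm

/-- sign: `1` if both are odd, `-1` otherwise -/
def sg (a b : T) : ℤ :=
  cond (Nat.beq (Nat.mul (Nat.mod (deg a) 2) (Nat.mod (deg b) 2)) 1) 1 (-1)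

/-- the four monomials of an elementary relation in its context -/
def expand (i : It) : List (ℤ × T) :=
  cond i.k
    [(1, wrap i.ctx (T.n (T.n i.a i.b) i.c)), (-1, wrap i.ctx (T.n i.a (T.n i.b i.c))),
     (Int.neg (sg i.a i.b), wrap i.ctx (T.n (T.n i.b i.a) i.c)), (sg i.a i.b, wrap i.ctx (T.n i.b (T.n i.a i.c)))]
    [(1, wrap i.ctx (T.n (T.n i.a i.b) i.c)), (-1, wrap i.ctx (T.n i.a (T.n i.b i.c))),
     (Int.neg (sg i.b i.c), wrap i.ctx (T.n (T.n i.a i.c) i.b)), (sg i.b i.c, wrap i.ctx (T.n i.a (T.n i.c i.b)))]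

variable {P : ℕ → AddSubgroup R}

lemma ev_mem (hR : SuperAlt R P) (hv : ∀ i, v i ∈ P 1) : ∀ t : T, ev v t ∈ P (deg t % 2)
  | T.g i => hv i
  | T.n a b => by
      have h := hR.mul_mem (ev_mem hR hv a) (ev_mem hR hv b)
      have e : (deg a % 2 + deg b % 2) % 2 = deg (T.n a b) % 2 := by
        show _ = (deg a + deg b) % 2
        omega
      rw [e] at h
      exact h

lemma sg_eq (a b : T) : sg a b = if (deg a % 2) * (deg b % 2) = 1 then (1 : ℤ) else -1 := by
  unfold sg
  by_cases h : (deg a % 2) * (deg b % 2) = 1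
  · have h2 : Nat.beq (Nat.mul (Nat.mod (deg a) 2) (Nat.mod (deg b) 2)) 1 = true := by
      have h3 : Nat.mul (Nat.mod (deg a) 2) (Nat.mod (deg b) 2) = 1 := h
      rw [h3]; rfl
    rw [h2, if_pos h]; rfl
  · have h2 : Nat.beq (Nat.mul (Nat.mod (deg a) 2) (Nat.mod (deg b) 2)) 1 = false := by
      cases hb : Nat.beq (Nat.mul (Nat.mod (deg a) 2) (Nat.mod (deg b) 2)) 1 with
      | false => rfl
      | true => exact absurd (Nat.eq_of_beq_eq_true hb) h
    rw [h2, if_neg h]; rfl

lemma evL_expand (hR : SuperAlt R P) (hv : ∀ i, v i ∈ P 1) (i : It) : evL v (expand i) = 0 := by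
  have key : ∀ (C : List (Bool × T)) (x1 x2 x3 x4 : R) (s : ℤ), (x1 - x2) - s • (x3 - x4) = 0 →
      (1 : ℤ) • wrapR v C x1 + ((-1 : ℤ) • wrapR v C x2 + (Int.neg s • wrapR v C x3 + (s • wrapR v C x4 + 0))) = 0 := by
    intro C x1 x2 x3 x4 s h
    have hz : ∀ (m : ℤ) (y : R), wrapR v C (m • y) = m • wrapR v C y := by
      intro m y
      exact map_zsmul (AddMonoidHom.mk' (wrapR v C) (wrapR_add v C)) m y
    have h2 := congrArg (wrapR v C) h
    rw [wrapR_zero, sub_eq_add_neg, sub_eq_add_neg, sub_eq_add_neg, wrapR_add, wrapR_add, wrapR_neg, wrapR_neg, hz,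
      wrapR_add, wrapR_neg] at h2
    have h3 : Int.neg s = -s := rfl
    rw [h3, neg_smul, one_smul, neg_smul, one_smul, add_zero]
    refine Eq.trans ?_ h2
    simp only [smul_add, smul_neg]
    abel
  unfold expand
  cases hk : i.k
  · have h := hR.right (i := deg i.a % 2) (j := deg i.b % 2) (k := deg i.c % 2) (Nat.mod_lt _ (by norm_num))
      (Nat.mod_lt _ (by norm_num)) (ev_mem v hR hv i.a) (ev_mem v hR hv i.b) (ev_mem v hR hv i.c)
    show evL v [_, _, _, _] = 0
    simp only [evL_cons, evL_nil, ev_wrap]
    apply key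
    show (ev v i.a * ev v i.b * ev v i.c - ev v i.a * (ev v i.b * ev v i.c)) -
      sg i.b i.c • (ev v i.a * ev v i.c * ev v i.b - ev v i.a * (ev v i.c * ev v i.b)) = 0
    rw [sub_eq_zero, sg_eq]
    exact h
  · have h := hR.left (i := deg i.a % 2) (j := deg i.b % 2) (k := deg i.c % 2) (Nat.mod_lt _ (by norm_num))
      (Nat.mod_lt _ (by norm_num)) (ev_mem v hR hv i.a) (ev_mem v hR hv i.b) (ev_mem v hR hv i.c)
    show evL v [_, _, _, _] = 0
    simp only [evL_cons, evL_nil, ev_wrap]
    apply key
    show (ev v i.a * ev v i.b * ev v i.c - ev v i.a * (ev v i.b * ev v i.c)) -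
      sg i.a i.b • (ev v i.b * ev v i.a * ev v i.c - ev v i.b * (ev v i.a * ev v i.c)) = 0
    rw [sub_eq_zero, sg_eq]
    exact h

/-- accumulate a list of relations -/
def accum : List It → Tri → Tri
  | [], B => B
  | i :: L, B => accum L (insAll i.s (expand i) B)

lemma evB_accum (hR : SuperAlt R P) (hv : ∀ i, v i ∈ P 1) (L : List It) :
    ∀ B : Tri, evB v (accum L B) = evB v B := by
  induction L with
  | nil => intro B; rfl
  | cons i L ih =>
    intro B
    rw [accum, ih, evB_insAll, evL_expand v hR hv, smul_zero, add_zero]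

/-- the check -/
def check (m : ℤ) (F : List (ℤ × T)) (C : List It) : Bool := zeroB (accum C (insAll (Int.neg m) F Tri.nil))

theorem sound (hR : SuperAlt R P) (hv : ∀ i, v i ∈ P 1) {m : ℤ} {F : List (ℤ × T)} {C : List It}
    (h : check m F C = true) : m • evL v F = 0 := by
  have h1 := evB_zero v h
  rw [evB_accum v hR hv, evB_insAll] at h1
  have h2 : Int.neg m = -m := rfl
  rw [h2] at h1
  simpa [evB] using h1

end

end Q12.AltTor
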