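import Pool.Agent.Q12.AltTor.Cert

/-! The certificate: three times the polynomial `FF` is a combination of 691 elementary relations. -/

set_option autoImplicit false

namespace Q12.AltTor
open T

/-- first odd variable -/
abbrev x : T := g 0
/-- second odd variable -/
abbrev y : T := g 1
/-- third odd variable -/
abbrev z : T := g 2

/-- relations of the certificate -/
def C0 : List It := [
  ⟨true, z, y, n z (n x (n x y)), [], 1⟩,
  ⟨false, z, y, n z (n x (n x y)), [], -1⟩,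
  ⟨true, z, y, n z (n (n x y) x), [], 1⟩,
  ⟨false, z, y, n z (n (n x y) x), [], -1⟩,
  ⟨true, z, y, n z (n (n x x) y), [], 1⟩,
  ⟨true, z, y, n y (n z (n x x)), [], 1⟩,
  ⟨false, z, y, n y (n z (n x x)), [], -1⟩,
  ⟨true, z, y, n y (n x (n z x)), [], 1⟩,
  ⟨false, z, y, n y (n x (n z x)), [], -1⟩,
  ⟨true, z, y, n y (n x (n x z)), [], -1⟩,
  ⟨false, z, y, n y (n x (n x z)), [], 1⟩,
  ⟨true, z, y, n y (n (n z x) x), [], -1⟩,
  ⟨false, z, y, n y (n (n z x) x), [], 1⟩,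
  ⟨true, z, y, n y (n (n x x) z), [], 1⟩,
  ⟨false, z, y, n y (n (n x x) z), [], 1⟩,
  ⟨true, z, y, n (n z y) (n x x), [], -1⟩,
  ⟨false, z, y, n (n z y) (n x x), [], 1⟩,
  ⟨true, z, y, n (n y z) (n x x), [], 1⟩,
  ⟨false, z, y, n (n y z) (n x x), [], -1⟩,
  ⟨true, z, y, n x (n y (n z x)), [], -1⟩,
  ⟨false, z, y, n x (n y (n z x)), [], 1⟩,
  ⟨true, z, y, n x (n y (n x z)), [], -1⟩,
  ⟨false, z, y, n x (n y (n x z)), [], 1⟩,
  ⟨true, z, y, n (n z x) (n y x), [], -1⟩,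
  ⟨false, z, y, n (n z x) (n y x), [], 1⟩,
  ⟨true, z, y, n (n x z) (n x y), [], -1⟩,
  ⟨false, z, y, n (n x z) (n x y), [], 1⟩,
  ⟨true, z, y, n (n y x) (n z x), [], -1⟩,
  ⟨false, z, y, n (n y x) (n z x), [], 1⟩,
  ⟨true, z, y, n (n y x) (n x z), [], 1⟩,
  ⟨false, z, y, n (n y x) (n x z), [], -1⟩,
  ⟨true, z, y, n (n x y) (n z x), [], -1⟩,
  ⟨false, z, y, n (n x y) (n z x), [], 1⟩,
  ⟨true, z, y, n (n y (n z x)) x, [], 1⟩,
  ⟨false, z, y, n (n y (n z x)) x, [], -1⟩,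
  ⟨true, z, y, n (n y (n x z)) x, [], 1⟩,
  ⟨false, z, y, n (n y (n x z)) x, [], -1⟩,
  ⟨true, z, y, n (n (n z x) y) x, [], -1⟩,
  ⟨false, z, y, n (n (n z x) y) x, [], 1⟩,
  ⟨true, z, y, n (n (n x z) y) x, [], 1⟩,
  ⟨false, z, y, n (n (n x z) y) x, [], -1⟩,
  ⟨true, z, y, n (n (n x y) z) x, [], 1⟩,
  ⟨false, z, y, n (n (n x y) z) x, [], -1⟩,
  ⟨true, z, y, n (n x x) (n y z), [], -1⟩,
  ⟨false, z, y, n (n x x) (n y z), [], -1⟩,
  ⟨false, z, y, n (n x (n z x)) y, [], -1⟩,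
  ⟨false, z, y, n (n x (n x z)) y, [], -1⟩,
  ⟨false, z, y, n (n (n x x) z) y, [], -1⟩,
  ⟨true, z, y, n (n y (n x x)) z, [], 1⟩,
  ⟨true, z, y, n (n x (n x y)) z, [], -1⟩,
  ⟨false, z, y, n (n (n y x) x) z, [], -1⟩,
  ⟨true, z, y, n (n (n x y) x) z, [], -1⟩,
  ⟨true, z, n z y, n y (n x x), [], 1⟩,
  ⟨true, z, n z y, n x (n x y), [], -1⟩,
  ⟨true, z, n z y, n (n y x) x, [], -1⟩,
  ⟨true, z, n z y, n (n x y) x, [], -1⟩,
  ⟨true, z, n z y, n (n x x) y, [], 1⟩,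
  ⟨true, z, n y z, n y (n x x), [], 1⟩,
  ⟨true, z, n y z, n x (n x y), [], 1⟩,
  ⟨true, z, n y z, n (n x y) x, [], 1⟩,
  ⟨true, z, n y z, n (n x x) y, [], 1⟩,
  ⟨true, z, n y y, n x (n z x), [], 1⟩,
  ⟨false, z, n y y, n x (n z x), [], -1⟩,
  ⟨true, z, n y y, n x (n x z), [], -1⟩,
  ⟨false, z, n y y, n x (n x z), [], 1⟩,
  ⟨false, z, n y y, n (n x x) z, [], 1⟩,
  ⟨true, z, n z (n y y), n x x, [], 1⟩,
  ⟨true, z, n y (n y z), n x x, [], 1⟩,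
  ⟨true, z, n (n z y) y, n x x, [], -1⟩,
  ⟨true, z, n (n y z) y, n x x, [], -1⟩]

/-- relations of the certificate -/
def C1 : List It := [
  ⟨true, z, n (n y y) z, n x x, [], -1⟩,
  ⟨true, z, x, n z (n y (n x y)), [], 1⟩,
  ⟨true, z, x, n z (n (n y x) y), [], 1⟩,
  ⟨true, z, x, n y (n (n y x) z), [], -1⟩,
  ⟨true, z, x, n y (n (n x y) z), [], -1⟩,
  ⟨true, z, x, n (n z (n x y)) y, [], 1⟩,
  ⟨true, z, x, n (n (n y x) z) y, [], 1⟩,
  ⟨true, z, x, n (n y (n y x)) z, [], -1⟩,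
  ⟨true, z, x, n (n y (n x y)) z, [], -1⟩,
  ⟨true, z, n z x, n y (n y x), [], -1⟩,
  ⟨true, z, n z x, n (n y x) y, [], 1⟩,
  ⟨true, z, n x y, n y (n z x), [], 1⟩,
  ⟨false, z, n x y, n y (n z x), [], -1⟩,
  ⟨true, z, n x y, n y (n x z), [], -1⟩,
  ⟨true, z, n x y, n (n z x) y, [], 1⟩,
  ⟨false, z, n x y, n (n z x) y, [], 1⟩,
  ⟨true, z, n y (n z x), n x y, [], 1⟩,
  ⟨true, z, n y (n x z), n x y, [], 1⟩,
  ⟨true, z, n y (n y x), n z x, [], -1⟩,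
  ⟨false, z, n y (n y x), n z x, [], 1⟩,
  ⟨true, z, n y (n x y), n x z, [], 1⟩,
  ⟨false, z, n y (n x y), n x z, [], 1⟩,
  ⟨true, z, n (n y x) y, n z x, [], 1⟩,
  ⟨false, z, n (n y x) y, n z x, [], -1⟩,
  ⟨true, z, n (n y x) y, n x z, [], 1⟩,
  ⟨false, z, n (n y x) y, n x z, [], 1⟩,
  ⟨false, z, n x x, n z (n y y), [], -1⟩,
  ⟨false, z, n x x, n y (n y z), [], -1⟩,
  ⟨false, z, n x x, n (n z y) y, [], 1⟩,
  ⟨false, z, n x x, n (n y z) y, [], 1⟩,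
  ⟨false, z, n x x, n (n y y) z, [], 1⟩,
  ⟨true, z, n z (n x x), n y y, [], 1⟩,
  ⟨true, z, n y (n x x), n z y, [], -1⟩,
  ⟨false, z, n y (n x x), n z y, [], -1⟩,
  ⟨true, z, n y (n x x), n y z, [], 1⟩,
  ⟨false, z, n y (n x x), n y z, [], -1⟩,
  ⟨false, z, n x (n x y), n z y, [], 1⟩,
  ⟨false, z, n x (n x y), n y z, [], -1⟩,
  ⟨false, z, n (n y x) x, n z y, [], 1⟩,
  ⟨false, z, n (n x y) x, n z y, [], 1⟩,
  ⟨false, z, n (n x y) x, n y z, [], -1⟩,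
  ⟨false, z, n (n x x) y, n z y, [], -1⟩,
  ⟨false, z, n (n x x) y, n y z, [], 1⟩,
  ⟨true, z, n z (n y (n x x)), y, [], 1⟩,
  ⟨true, z, n z (n x (n x y)), y, [], 1⟩,
  ⟨true, z, n z (n (n y x) x), y, [], 1⟩,
  ⟨true, z, n z (n (n x y) x), y, [], 1⟩,
  ⟨true, z, n z (n (n x x) y), y, [], -1⟩,
  ⟨true, z, n y (n z (n x x)), y, [], 1⟩,
  ⟨true, z, n y (n x (n z x)), y, [], 1⟩,
  ⟨true, z, n y (n x (n x z)), y, [], 1⟩,
  ⟨true, z, n y (n (n x x) z), y, [], -1⟩,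
  ⟨true, z, n (n y z) (n x x), y, [], 1⟩,
  ⟨false, y, z, n z (n x (n x y)), [], 1⟩,
  ⟨false, y, z, n z (n (n x y) x), [], 1⟩,
  ⟨false, y, z, n z (n (n x x) y), [], -1⟩,
  ⟨false, y, z, n y (n z (n x x)), [], 1⟩,
  ⟨false, y, z, n y (n x (n z x)), [], 1⟩,
  ⟨false, y, z, n y (n x (n x z)), [], -1⟩,
  ⟨false, y, z, n y (n (n z x) x), [], -1⟩,
  ⟨false, y, z, n (n z y) (n x x), [], -1⟩,
  ⟨false, y, z, n (n y z) (n x x), [], 1⟩,
  ⟨false, y, z, n x (n y (n z x)), [], -1⟩,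
  ⟨false, y, z, n x (n y (n x z)), [], -1⟩,
  ⟨false, y, z, n (n z x) (n y x), [], -1⟩,
  ⟨false, y, z, n (n x z) (n x y), [], -1⟩,
  ⟨false, y, z, n (n y x) (n z x), [], -1⟩,
  ⟨false, y, z, n (n y x) (n x z), [], 1⟩,
  ⟨false, y, z, n (n x y) (n z x), [], -1⟩,
  ⟨false, y, z, n (n y (n z x)) x, [], 1⟩]

/-- relations of the certificate -/
def C2 : List It := [
  ⟨false, y, z, n (n y (n x z)) x, [], 1⟩,
  ⟨false, y, z, n (n (n z x) y) x, [], -1⟩,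
  ⟨false, y, z, n (n (n x z) y) x, [], 1⟩,
  ⟨false, y, z, n (n (n x y) z) x, [], 1⟩,
  ⟨false, y, z, n (n x x) (n z y), [], 1⟩,
  ⟨false, y, z, n (n x x) (n y z), [], 1⟩,
  ⟨false, y, z, n (n z (n x x)) y, [], 1⟩,
  ⟨false, y, z, n (n y (n x x)) z, [], -1⟩,
  ⟨false, y, y, n z (n (n x x) z), [], -1⟩,
  ⟨false, y, y, n (n z (n x x)) z, [], 1⟩,
  ⟨false, y, y, n (n x (n z x)) z, [], 1⟩,
  ⟨false, y, y, n (n x (n x z)) z, [], -1⟩,
  ⟨false, y, y, n (n (n x x) z) z, [], 1⟩,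
  ⟨true, y, n z y, n x (n z x), [], -1⟩,
  ⟨true, y, n z y, n x (n x z), [], -1⟩,
  ⟨true, y, n z y, n (n x x) z, [], 1⟩,
  ⟨true, y, n y z, n z (n x x), [], 1⟩,
  ⟨true, y, n y z, n (n x x) z, [], -1⟩,
  ⟨true, y, n z (n y z), n x x, [], -1⟩,
  ⟨true, y, n (n z y) z, n x x, [], 1⟩,
  ⟨true, y, n (n y z) z, n x x, [], 1⟩,
  ⟨true, y, x, n z (n y (n x z)), [], -1⟩,
  ⟨true, y, x, n z (n (n z x) y), [], -1⟩,
  ⟨true, y, x, n y (n (n z x) z), [], 1⟩,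
  ⟨true, y, x, n y (n (n x z) z), [], 1⟩,
  ⟨true, y, x, n (n z (n x z)) y, [], -1⟩,
  ⟨true, y, x, n (n (n z x) z) y, [], -1⟩,
  ⟨true, y, x, n (n y (n z x)) z, [], 1⟩,
  ⟨true, y, x, n (n y (n x z)) z, [], 1⟩,
  ⟨true, y, n z x, n z (n x y), [], -1⟩,
  ⟨true, y, n z x, n (n y x) z, [], 1⟩,
  ⟨true, y, n z x, n (n x y) z, [], -1⟩,
  ⟨false, y, n x z, n z (n x y), [], -1⟩,
  ⟨false, y, n x z, n (n x y) z, [], 1⟩,
  ⟨true, y, n z (n x z), n y x, [], 1⟩,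
  ⟨true, y, n z (n x z), n x y, [], -1⟩,
  ⟨true, y, n (n z x) z, n y x, [], 1⟩,
  ⟨true, y, n (n z x) z, n x y, [], -1⟩,
  ⟨true, y, n y x, n z (n x z), [], -1⟩,
  ⟨false, y, n y x, n z (n x z), [], -1⟩,
  ⟨false, y, n y x, n (n z x) z, [], -1⟩,
  ⟨true, y, n y x, n (n x z) z, [], 1⟩,
  ⟨false, y, n x y, n z (n x z), [], 1⟩,
  ⟨false, y, n x y, n (n x z) z, [], -1⟩,
  ⟨true, y, n z (n x y), n x z, [], 1⟩,
  ⟨true, y, n (n y x) z, n x z, [], 1⟩,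
  ⟨false, y, n x x, n z (n y z), [], 1⟩,
  ⟨false, y, n x x, n (n z y) z, [], -1⟩,
  ⟨false, y, n x x, n (n y z) z, [], -1⟩,
  ⟨true, y, n z (n x x), n z y, [], 1⟩,
  ⟨true, y, n z (n x x), n y z, [], -1⟩,
  ⟨false, y, n z (n x x), n y z, [], -1⟩,
  ⟨false, y, n x (n z x), n z y, [], 1⟩,
  ⟨false, y, n x (n x z), n z y, [], 1⟩,
  ⟨false, y, n (n x x) z, n z y, [], -1⟩,
  ⟨false, y, n (n x x) z, n y z, [], -1⟩,
  ⟨true, y, n z (n z (n x x)), y, [], 1⟩,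
  ⟨true, y, n z (n x (n z x)), y, [], -1⟩,
  ⟨true, y, n z (n x (n x z)), y, [], 1⟩,
  ⟨true, y, n z (n (n x x) z), y, [], 1⟩,
  ⟨true, y, n (n z (n x x)) z, y, [], -1⟩,
  ⟨true, y, n z (n x (n x y)), z, [], -1⟩,
  ⟨true, y, n z (n (n x y) x), z, [], -1⟩,
  ⟨true, y, n z (n (n x x) y), z, [], 1⟩,
  ⟨true, y, n y (n z (n x x)), z, [], 1⟩,
  ⟨true, y, n y (n (n x x) z), z, [], -1⟩,
  ⟨true, y, n (n z y) (n x x), z, [], 1⟩,
  ⟨true, y, n (n y z) (n x x), z, [], -1⟩,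
  ⟨true, y, n (n z (n x x)) y, z, [], -1⟩,
  ⟨true, y, n (n y (n x x)) z, z, [], 1⟩]

/-- relations of the certificate -/
def C3 : List It := [
  ⟨false, n z y, z, n y (n x x), [], -1⟩,
  ⟨false, n z y, z, n x (n x y), [], 1⟩,
  ⟨false, n z y, z, n (n y x) x, [], 1⟩,
  ⟨false, n z y, z, n (n x y) x, [], 1⟩,
  ⟨false, n y z, z, n y (n x x), [], -1⟩,
  ⟨false, n y z, z, n x (n x y), [], -1⟩,
  ⟨false, n y z, z, n (n x y) x, [], -1⟩,
  ⟨false, n z y, y, n x (n z x), [], 1⟩,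
  ⟨false, n z y, y, n x (n x z), [], 1⟩,
  ⟨false, n z y, y, n (n x x) z, [], 1⟩,
  ⟨false, n y z, y, n z (n x x), [], -1⟩,
  ⟨true, n z y, n y z, n x x, [], -1⟩,
  ⟨true, n y z, n y z, n x x, [], -1⟩,
  ⟨false, n z y, n x x, n y z, [], 1⟩,
  ⟨false, n y z, n x x, n z y, [], 1⟩,
  ⟨false, n y z, n x x, n y z, [], -1⟩,
  ⟨false, n z (n y z), y, n x x, [], -1⟩,
  ⟨false, n (n z y) z, y, n x x, [], 1⟩,
  ⟨false, n (n y z) z, y, n x x, [], 1⟩,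
  ⟨false, n y y, z, n x (n z x), [], -1⟩,
  ⟨false, n y y, z, n x (n x z), [], 1⟩,
  ⟨false, n y y, z, n (n x x) z, [], -1⟩,
  ⟨true, n y y, n z (n x x), z, [], 1⟩,
  ⟨false, n z (n y y), z, n x x, [], 1⟩,
  ⟨false, n y (n y z), z, n x x, [], 1⟩,
  ⟨false, n (n z y) y, z, n x x, [], -1⟩,
  ⟨false, n (n y z) y, z, n x x, [], -1⟩,
  ⟨false, n (n y y) z, z, n x x, [], -1⟩,
  ⟨false, x, z, n z (n y (n x y)), [], 1⟩,
  ⟨false, x, z, n z (n (n y x) y), [], 1⟩,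
  ⟨false, x, z, n y (n (n y x) z), [], -1⟩,
  ⟨false, x, z, n y (n (n x y) z), [], -1⟩,
  ⟨false, x, z, n (n z (n x y)) y, [], 1⟩,
  ⟨false, x, z, n (n (n y x) z) y, [], 1⟩,
  ⟨false, x, z, n (n y (n y x)) z, [], -1⟩,
  ⟨false, x, z, n (n y (n x y)) z, [], -1⟩,
  ⟨false, x, y, n z (n y (n x z)), [], -1⟩,
  ⟨false, x, y, n z (n (n z x) y), [], -1⟩,
  ⟨false, x, y, n y (n (n z x) z), [], 1⟩,
  ⟨false, x, y, n y (n (n x z) z), [], 1⟩,
  ⟨false, x, y, n (n z (n x z)) y, [], -1⟩,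
  ⟨false, x, y, n (n (n z x) z) y, [], -1⟩,
  ⟨false, x, y, n (n y (n z x)) z, [], 1⟩,
  ⟨false, x, y, n (n y (n x z)) z, [], 1⟩,
  ⟨true, x, n z (n y (n x z)), y, [], 1⟩,
  ⟨true, x, n z (n (n z x) y), y, [], 1⟩,
  ⟨true, x, n y (n (n z x) z), y, [], -1⟩,
  ⟨true, x, n y (n (n x z) z), y, [], -1⟩,
  ⟨true, x, n (n z (n x z)) y, y, [], 1⟩,
  ⟨true, x, n (n (n z x) z) y, y, [], 1⟩,
  ⟨true, x, n (n y (n z x)) z, y, [], -1⟩,
  ⟨true, x, n (n y (n x z)) z, y, [], -1⟩,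
  ⟨true, x, n z (n y (n x y)), z, [], -1⟩,
  ⟨true, x, n z (n (n y x) y), z, [], -1⟩,
  ⟨true, x, n y (n (n y x) z), z, [], 1⟩,
  ⟨true, x, n y (n (n x y) z), z, [], 1⟩,
  ⟨true, x, n (n z (n x y)) y, z, [], -1⟩,
  ⟨true, x, n (n (n y x) z) y, z, [], -1⟩,
  ⟨true, x, n (n y (n y x)) z, z, [], 1⟩,
  ⟨true, x, n (n y (n x y)) z, z, [], 1⟩,
  ⟨false, n z x, z, n y (n y x), [], 1⟩,
  ⟨false, n z x, z, n y (n x y), [], 1⟩,
  ⟨false, n z x, y, n z (n x y), [], 1⟩,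
  ⟨false, n z x, y, n (n y x) z, [], 1⟩,
  ⟨true, n z x, n z (n x y), y, [], -1⟩,
  ⟨true, n z x, n (n y x) z, y, [], -1⟩,
  ⟨false, n z (n x z), y, n y x, [], 1⟩,
  ⟨false, n (n z x) z, y, n y x, [], 1⟩,
  ⟨false, n y x, z, n y (n x z), [], -1⟩,
  ⟨false, n y x, z, n (n z x) y, [], -1⟩]

/-- relations of the certificate -/
def C4 : List It := [
  ⟨false, n x y, z, n y (n z x), [], -1⟩,
  ⟨false, n x y, z, n y (n x z), [], 1⟩,
  ⟨false, n x y, z, n (n z x) y, [], -1⟩,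
  ⟨false, n y x, y, n z (n x z), [], 1⟩,
  ⟨false, n y x, y, n (n z x) z, [], 1⟩,
  ⟨true, n y x, n y (n z x), z, [], 1⟩,
  ⟨true, n y x, n (n z x) y, z, [], -1⟩,
  ⟨true, n x y, n y (n z x), z, [], -1⟩,
  ⟨true, n x y, n y (n x z), z, [], 1⟩,
  ⟨true, n x y, n (n z x) y, z, [], -1⟩,
  ⟨false, n y (n y x), z, n z x, [], -1⟩,
  ⟨false, n y (n y x), z, n x z, [], 1⟩,
  ⟨false, n y (n x y), z, n x z, [], -1⟩,
  ⟨false, n (n y x) y, z, n z x, [], 1⟩,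
  ⟨false, n (n y x) y, z, n x z, [], 1⟩,
  ⟨false, n z (n x x), y, n z y, [], 1⟩,
  ⟨false, n z (n x x), y, n y z, [], 1⟩,
  ⟨false, n y (n x x), z, n z y, [], -1⟩,
  ⟨false, n y (n x x), z, n y z, [], -1⟩,
  ⟨true, z, y, n y (n x x), [(true, z)], 1⟩,
  ⟨true, z, y, n y (n x x), [(false, z)], -1⟩,
  ⟨false, z, y, n y (n x x), [(true, z)], -1⟩,
  ⟨false, z, y, n y (n x x), [(false, z)], 1⟩,
  ⟨true, z, y, n x (n y x), [(true, z)], -1⟩,
  ⟨true, z, y, n x (n y x), [(false, z)], 1⟩,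
  ⟨false, z, y, n x (n y x), [(true, z)], 1⟩,
  ⟨false, z, y, n x (n y x), [(false, z)], -1⟩,
  ⟨true, z, y, n x (n x y), [(false, z)], -1⟩,
  ⟨false, z, y, n x (n x y), [(false, z)], -1⟩,
  ⟨true, z, y, n (n y x) x, [(true, z)], 1⟩,
  ⟨false, z, y, n (n y x) x, [(true, z)], -1⟩,
  ⟨false, z, y, n (n y x) x, [(false, z)], 1⟩,
  ⟨true, z, y, n (n x y) x, [(true, z)], -1⟩,
  ⟨true, z, y, n (n x y) x, [(false, z)], 1⟩,
  ⟨false, z, y, n (n x y) x, [(true, z)], 1⟩,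
  ⟨true, z, y, n (n x x) y, [(true, z)], 1⟩,
  ⟨false, z, y, n (n x x) y, [(false, z)], -1⟩,
  ⟨true, z, n y y, n x x, [(true, z)], 1⟩,
  ⟨true, z, n y y, n x x, [(false, z)], 1⟩,
  ⟨true, z, x, n y (n y x), [(false, z)], 1⟩,
  ⟨false, z, x, n y (n y x), [(false, z)], 1⟩,
  ⟨true, z, x, n y (n x y), [(true, z)], 1⟩,
  ⟨true, z, x, n y (n x y), [(false, z)], -1⟩,
  ⟨true, z, x, n (n y x) y, [(false, z)], 1⟩,
  ⟨false, z, x, n (n y x) y, [(false, z)], -1⟩,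
  ⟨true, z, x, n (n x y) y, [(true, z)], -1⟩,
  ⟨true, z, n y x, n y x, [(true, z)], 1⟩,
  ⟨false, z, n y x, n y x, [(true, z)], 1⟩,
  ⟨true, z, n y x, n x y, [(true, z)], -1⟩,
  ⟨true, z, n y x, n x y, [(false, z)], 1⟩,
  ⟨false, z, n y x, n x y, [(true, z)], 1⟩,
  ⟨false, z, n y x, n x y, [(false, z)], 1⟩,
  ⟨true, z, n x y, n y x, [(true, z)], -1⟩,
  ⟨true, z, n x y, n x y, [(true, z)], -1⟩,
  ⟨false, z, n x y, n x y, [(true, z)], -1⟩,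
  ⟨true, z, n y (n y x), x, [(false, z)], 1⟩,
  ⟨true, z, n y (n x y), x, [(false, z)], 1⟩,
  ⟨true, z, n x x, n y y, [(true, z)], -1⟩,
  ⟨false, z, n x x, n y y, [(true, z)], -1⟩,
  ⟨false, z, n x x, n y y, [(false, z)], 1⟩,
  ⟨true, z, n y (n x x), y, [(true, z)], -1⟩,
  ⟨true, z, n x (n x y), y, [(true, z)], 1⟩,
  ⟨true, z, n (n y x) x, y, [(true, z)], 1⟩,
  ⟨true, z, n (n x y) x, y, [(true, z)], 1⟩,
  ⟨true, z, n (n x x) y, y, [(true, z)], -1⟩,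
  ⟨false, y, z, n y (n x x), [(true, z)], 1⟩,
  ⟨false, y, z, n y (n x x), [(false, z)], -1⟩,
  ⟨false, y, z, n x (n y x), [(true, z)], -1⟩,
  ⟨false, y, z, n x (n y x), [(false, z)], 1⟩,
  ⟨false, y, z, n x (n x y), [(false, z)], 1⟩]

/-- relations of the certificate -/
def C5 : List It := [
  ⟨false, y, z, n (n y x) x, [(true, z)], 1⟩,
  ⟨false, y, z, n (n x y) x, [(true, z)], -1⟩,
  ⟨false, y, y, n x (n z x), [(false, z)], -1⟩,
  ⟨false, y, y, n x (n x z), [(false, z)], 1⟩,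
  ⟨false, y, y, n (n x x) z, [(false, z)], -1⟩,
  ⟨true, y, n z y, n x x, [(true, z)], -1⟩,
  ⟨true, y, n z y, n x x, [(false, z)], -1⟩,
  ⟨true, y, n y z, n x x, [(false, z)], 1⟩,
  ⟨true, y, x, n z (n y x), [(false, z)], 1⟩,
  ⟨true, y, x, n z (n x y), [(true, z)], 1⟩,
  ⟨false, y, x, n z (n x y), [(false, z)], -1⟩,
  ⟨true, y, x, n y (n z x), [(false, z)], 1⟩,
  ⟨true, y, x, n (n x z) y, [(true, z)], -1⟩,
  ⟨true, y, x, n (n y x) z, [(true, z)], -1⟩,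
  ⟨true, y, x, n (n y x) z, [(false, z)], 1⟩,
  ⟨true, y, x, n (n x y) z, [(true, z)], -1⟩,
  ⟨false, y, x, n (n x y) z, [(false, z)], 1⟩,
  ⟨true, y, n z x, n y x, [(false, z)], 1⟩,
  ⟨true, y, n z x, n x y, [(true, z)], -1⟩,
  ⟨true, y, n z x, n x y, [(false, z)], 1⟩,
  ⟨true, y, n x z, n y x, [(true, z)], -1⟩,
  ⟨true, y, n x z, n x y, [(true, z)], 1⟩,
  ⟨true, y, n y x, n z x, [(false, z)], -1⟩,
  ⟨false, y, n y x, n z x, [(false, z)], 1⟩,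
  ⟨true, y, n y x, n x z, [(true, z)], 1⟩,
  ⟨true, y, n y x, n x z, [(false, z)], 1⟩,
  ⟨false, y, n y x, n x z, [(true, z)], 1⟩,
  ⟨true, y, n x y, n z x, [(true, z)], -1⟩,
  ⟨false, y, n x y, n z x, [(true, z)], 1⟩,
  ⟨false, y, n x y, n z x, [(false, z)], -1⟩,
  ⟨true, y, n x y, n x z, [(true, z)], 1⟩,
  ⟨false, y, n x y, n x z, [(false, z)], -1⟩,
  ⟨true, y, n z (n x y), x, [(false, z)], -1⟩,
  ⟨true, y, n (n y x) z, x, [(false, z)], -1⟩,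
  ⟨true, y, n x x, n z y, [(true, z)], 1⟩,
  ⟨false, y, n x x, n z y, [(true, z)], 1⟩,
  ⟨false, y, n x x, n z y, [(false, z)], 1⟩,
  ⟨true, y, n x x, n y z, [(true, z)], -1⟩,
  ⟨false, y, n x x, n y z, [(false, z)], 1⟩,
  ⟨true, y, n z (n x x), y, [(false, z)], 1⟩,
  ⟨true, y, n x (n z x), y, [(true, z)], -1⟩,
  ⟨true, y, n x (n x z), y, [(true, z)], 1⟩,
  ⟨true, y, n y (n x x), z, [(true, z)], 1⟩,
  ⟨true, y, n x (n x y), z, [(true, z)], -1⟩,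
  ⟨true, y, n (n x y) x, z, [(true, z)], -1⟩,
  ⟨false, n z y, y, n x x, [(true, z)], 1⟩,
  ⟨false, n z y, y, n x x, [(false, z)], -1⟩,
  ⟨false, n y y, z, n x x, [(true, z)], -1⟩,
  ⟨false, x, z, n y (n y x), [(false, z)], 1⟩,
  ⟨false, x, z, n y (n x y), [(false, z)], -1⟩,
  ⟨false, x, z, n (n y x) y, [(true, z)], -1⟩,
  ⟨false, x, z, n (n y x) y, [(false, z)], 1⟩,
  ⟨false, x, z, n (n x y) y, [(true, z)], -1⟩,
  ⟨false, x, y, n z (n y x), [(false, z)], 1⟩,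
  ⟨false, x, y, n z (n x y), [(true, z)], 1⟩,
  ⟨false, x, y, n y (n z x), [(false, z)], 1⟩,
  ⟨false, x, y, n (n x z) y, [(true, z)], -1⟩,
  ⟨false, x, y, n (n y x) z, [(false, z)], 1⟩,
  ⟨true, x, n z (n y x), y, [(false, z)], 1⟩,
  ⟨true, x, n y (n z x), y, [(false, z)], 1⟩,
  ⟨true, x, n (n x z) y, y, [(true, z)], -1⟩,
  ⟨true, x, n (n y x) z, y, [(true, z)], -1⟩,
  ⟨true, x, n (n y x) z, y, [(false, z)], 1⟩,
  ⟨true, x, n y (n y x), z, [(true, z)], 1⟩,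
  ⟨true, x, n y (n y x), z, [(false, z)], 1⟩,
  ⟨true, x, n y (n x y), z, [(true, z)], 1⟩,
  ⟨true, x, n y (n x y), z, [(false, z)], -1⟩,
  ⟨true, x, n (n y x) y, z, [(true, z)], -1⟩,
  ⟨true, x, n (n y x) y, z, [(false, z)], 1⟩,
  ⟨true, x, n (n x y) y, z, [(true, z)], -1⟩]

/-- relations of the certificate -/
def C6 : List It := [
  ⟨false, n z x, y, n x y, [(true, z)], -1⟩,
  ⟨false, n x z, y, n y x, [(true, z)], 1⟩,
  ⟨false, n y x, z, n y x, [(true, z)], -1⟩,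
  ⟨false, n y x, z, n y x, [(false, z)], 1⟩,
  ⟨false, n y x, z, n x y, [(true, z)], -1⟩,
  ⟨false, n y x, z, n x y, [(false, z)], 1⟩,
  ⟨false, n x y, z, n y x, [(true, z)], 1⟩,
  ⟨false, n x y, z, n x y, [(true, z)], 1⟩,
  ⟨false, n y x, y, n x z, [(true, z)], -1⟩,
  ⟨false, n x y, y, n z x, [(true, z)], 1⟩,
  ⟨false, n x x, z, n y y, [(true, z)], -1⟩,
  ⟨false, n x x, y, n z y, [(true, z)], -1⟩,
  ⟨false, n x x, y, n y z, [(true, z)], -1⟩,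
  ⟨false, y, y, n x x, [(true, z), (false, z)], -1⟩,
  ⟨false, y, y, n x x, [(false, z), (true, z)], 1⟩,
  ⟨true, y, x, n y x, [(true, z), (false, z)], -1⟩,
  ⟨true, y, x, n y x, [(false, z), (true, z)], 1⟩,
  ⟨false, y, x, n y x, [(true, z), (false, z)], -1⟩,
  ⟨false, y, x, n y x, [(false, z), (true, z)], -1⟩,
  ⟨true, y, x, n x y, [(true, z), (false, z)], 1⟩,
  ⟨false, y, x, n x y, [(true, z), (false, z)], 1⟩,
  ⟨false, y, x, n x y, [(false, z), (true, z)], -1⟩,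
  ⟨false, y, x, n x y, [(false, z), (false, z)], -1⟩,
  ⟨true, y, n y x, x, [(true, z), (false, z)], 1⟩,
  ⟨true, y, n y x, x, [(false, z), (true, z)], -1⟩,
  ⟨true, y, n y x, x, [(false, z), (false, z)], 1⟩,
  ⟨true, y, n x y, x, [(false, z), (true, z)], -1⟩,
  ⟨true, y, n x x, y, [(true, z), (true, z)], -1⟩,
  ⟨true, y, n x x, y, [(true, z), (false, z)], -1⟩,
  ⟨true, y, n x x, y, [(false, z), (true, z)], -1⟩,
  ⟨false, x, y, n y x, [(false, z), (true, z)], -1⟩,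
  ⟨false, x, y, n x y, [(true, z), (true, z)], -1⟩,
  ⟨false, x, y, n x y, [(true, z), (false, z)], -1⟩,
  ⟨false, x, y, n x y, [(false, z), (true, z)], 1⟩,
  ⟨true, x, n y x, y, [(false, z), (true, z)], 1⟩,
  ⟨true, x, n x y, y, [(true, z), (true, z)], -1⟩,
  ⟨true, x, n x y, y, [(true, z), (false, z)], 1⟩,
  ⟨true, x, n x y, y, [(false, z), (true, z)], -1⟩,
  ⟨true, y, x, x, [(true, y), (true, z), (false, z)], 1⟩,
  ⟨true, y, x, x, [(true, y), (false, z), (true, z)], -1⟩,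
  ⟨true, y, x, x, [(true, y), (false, z), (false, z)], 1⟩,
  ⟨true, y, x, x, [(false, y), (true, z), (true, z)], -1⟩,
  ⟨true, y, x, x, [(false, y), (true, z), (false, z)], -1⟩,
  ⟨true, y, x, x, [(false, y), (false, z), (true, z)], -1⟩,
  ⟨false, x, y, x, [(false, y), (true, z), (false, z)], 1⟩,
  ⟨false, x, y, x, [(false, y), (false, z), (true, z)], -1⟩,
  ⟨true, z, y, n x x, [(true, y), (true, z)], 1⟩,
  ⟨true, z, y, n x x, [(true, y), (false, z)], -1⟩,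
  ⟨true, z, y, n x x, [(false, y), (true, z)], 1⟩,
  ⟨true, z, y, n x x, [(false, y), (false, z)], 1⟩,
  ⟨false, z, y, n x x, [(true, y), (true, z)], -1⟩,
  ⟨false, z, y, n x x, [(true, y), (false, z)], 1⟩,
  ⟨false, z, y, n x x, [(false, y), (true, z)], -1⟩,
  ⟨false, z, y, n x x, [(false, y), (false, z)], -1⟩,
  ⟨true, z, x, n y x, [(false, y), (true, z)], 1⟩,
  ⟨false, z, x, n y x, [(true, y), (false, z)], 1⟩,
  ⟨false, z, x, n y x, [(false, y), (true, z)], 1⟩,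
  ⟨true, z, x, n x y, [(true, y), (false, z)], 1⟩,
  ⟨true, z, x, n x y, [(false, y), (true, z)], -1⟩,
  ⟨false, z, x, n x y, [(true, y), (false, z)], -1⟩,
  ⟨false, z, x, n x y, [(false, y), (true, z)], 1⟩,
  ⟨true, z, n y x, x, [(true, y), (false, z)], -1⟩,
  ⟨true, z, n y x, x, [(false, y), (true, z)], -1⟩,
  ⟨true, z, n y x, x, [(false, y), (false, z)], 1⟩,
  ⟨true, z, n x y, x, [(true, y), (false, z)], 1⟩,
  ⟨true, z, n x y, x, [(false, y), (true, z)], -1⟩,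
  ⟨true, z, n x x, y, [(true, y), (true, z)], 1⟩,
  ⟨true, z, n x x, y, [(false, y), (true, z)], -1⟩,
  ⟨false, y, z, n x x, [(true, y), (true, z)], 1⟩,
  ⟨false, y, z, n x x, [(true, y), (false, z)], 1⟩]

/-- relations of the certificate -/
def C7 : List It := [
  ⟨false, y, z, n x x, [(false, y), (true, z)], 1⟩,
  ⟨false, y, z, n x x, [(false, y), (false, z)], -1⟩,
  ⟨true, y, x, n z x, [(true, y), (false, z)], -1⟩,
  ⟨true, y, x, n z x, [(false, y), (true, z)], -1⟩,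
  ⟨false, y, x, n z x, [(true, y), (false, z)], 1⟩,
  ⟨false, y, x, n z x, [(false, y), (true, z)], 1⟩,
  ⟨false, y, x, n z x, [(false, y), (false, z)], 1⟩,
  ⟨false, y, x, n x z, [(false, y), (true, z)], 1⟩,
  ⟨true, y, n z x, x, [(true, y), (false, z)], 1⟩,
  ⟨true, y, n z x, x, [(false, y), (true, z)], 1⟩,
  ⟨true, y, n x z, x, [(true, y), (false, z)], -1⟩,
  ⟨true, y, n x z, x, [(false, y), (true, z)], 1⟩,
  ⟨false, x, z, n y x, [(true, y), (false, z)], -1⟩,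
  ⟨false, x, z, n y x, [(false, y), (true, z)], 1⟩,
  ⟨false, x, z, n x y, [(true, y), (true, z)], -1⟩,
  ⟨false, x, z, n x y, [(true, y), (false, z)], -1⟩,
  ⟨false, x, z, n x y, [(false, y), (true, z)], 1⟩,
  ⟨false, x, y, n z x, [(false, y), (true, z)], 1⟩,
  ⟨false, x, y, n x z, [(true, y), (false, z)], -1⟩,
  ⟨false, x, y, n x z, [(false, y), (true, z)], -1⟩,
  ⟨true, x, n z x, y, [(false, y), (true, z)], -1⟩,
  ⟨true, x, n x z, y, [(true, y), (true, z)], 1⟩,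
  ⟨true, x, n x z, y, [(true, y), (false, z)], 1⟩,
  ⟨true, x, n x z, y, [(false, y), (true, z)], 1⟩,
  ⟨true, x, n y x, z, [(true, y), (true, z)], 1⟩,
  ⟨true, x, n y x, z, [(false, y), (true, z)], 1⟩,
  ⟨true, x, n x y, z, [(true, y), (true, z)], -1⟩,
  ⟨true, x, n x y, z, [(false, y), (true, z)], -1⟩,
  ⟨true, y, x, x, [(true, z), (false, y), (true, z)], -1⟩,
  ⟨true, y, x, x, [(true, z), (false, y), (false, z)], -1⟩,
  ⟨true, y, x, x, [(false, z), (false, y), (true, z)], -1⟩,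
  ⟨false, x, y, x, [(true, z), (true, y), (false, z)], -1⟩,
  ⟨false, x, y, x, [(true, z), (false, y), (true, z)], -1⟩,
  ⟨false, x, y, x, [(false, z), (false, y), (true, z)], 1⟩,
  ⟨true, z, x, x, [(true, y), (false, y), (false, z)], 1⟩,
  ⟨true, z, x, x, [(false, y), (false, y), (true, z)], 1⟩,
  ⟨false, x, z, x, [(true, y), (true, y), (false, z)], -1⟩,
  ⟨false, x, z, x, [(true, y), (false, y), (true, z)], -1⟩,
  ⟨false, x, z, x, [(true, y), (false, y), (false, z)], 1⟩,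
  ⟨false, x, z, x, [(false, y), (true, y), (true, z)], -1⟩,
  ⟨false, x, z, x, [(false, y), (true, y), (false, z)], -1⟩,
  ⟨true, z, y, n z (n x x), [(true, y)], 1⟩,
  ⟨true, z, y, n z (n x x), [(false, y)], -1⟩,
  ⟨false, z, y, n z (n x x), [(true, y)], -1⟩,
  ⟨true, z, y, n x (n z x), [(true, y)], -1⟩,
  ⟨true, z, y, n x (n z x), [(false, y)], 1⟩,
  ⟨false, z, y, n x (n z x), [(true, y)], 1⟩,
  ⟨true, z, y, n x (n x z), [(true, y)], 1⟩,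
  ⟨false, z, y, n x (n x z), [(true, y)], -1⟩,
  ⟨false, z, y, n x (n x z), [(false, y)], 1⟩,
  ⟨true, z, y, n (n z x) x, [(true, y)], 1⟩,
  ⟨true, z, y, n (n z x) x, [(false, y)], 1⟩,
  ⟨false, z, y, n (n z x) x, [(true, y)], -1⟩,
  ⟨false, z, y, n (n z x) x, [(false, y)], -1⟩,
  ⟨true, z, y, n (n x x) z, [(false, y)], -1⟩,
  ⟨false, z, y, n (n x x) z, [(false, y)], 1⟩,
  ⟨true, z, n y z, n x x, [(false, y)], -1⟩,
  ⟨true, z, x, n z (n y x), [(false, y)], 1⟩,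
  ⟨true, z, x, n y (n z x), [(false, y)], 1⟩,
  ⟨false, z, x, n y (n z x), [(false, y)], -1⟩,
  ⟨true, z, x, n y (n x z), [(true, y)], -1⟩,
  ⟨true, z, x, n y (n x z), [(false, y)], 1⟩,
  ⟨true, z, x, n (n z x) y, [(false, y)], -1⟩,
  ⟨false, z, x, n (n z x) y, [(false, y)], 1⟩,
  ⟨true, z, x, n (n x z) y, [(true, y)], -1⟩,
  ⟨true, z, x, n (n x y) z, [(true, y)], -1⟩,
  ⟨true, z, n z x, n y x, [(true, y)], 1⟩,
  ⟨true, z, n z x, n x y, [(true, y)], 1⟩,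
  ⟨true, z, n z x, n x y, [(false, y)], 1⟩,
  ⟨true, z, n x z, n x y, [(true, y)], -1⟩]

/-- relations of the certificate -/
def C8 : List It := [
  ⟨true, z, n y x, n z x, [(true, y)], 1⟩,
  ⟨false, z, n y x, n z x, [(true, y)], -1⟩,
  ⟨true, z, n y x, n x z, [(false, y)], 1⟩,
  ⟨false, z, n y x, n x z, [(false, y)], 1⟩,
  ⟨true, z, n x y, n z x, [(true, y)], 1⟩,
  ⟨false, z, n x y, n z x, [(true, y)], -1⟩,
  ⟨false, z, n x y, n z x, [(false, y)], 1⟩,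
  ⟨true, z, n x y, n x z, [(true, y)], -1⟩,
  ⟨false, z, n x y, n x z, [(true, y)], 1⟩,
  ⟨true, z, n y (n z x), x, [(false, y)], -1⟩,
  ⟨true, z, n y (n x z), x, [(false, y)], -1⟩,
  ⟨true, z, n x x, n z y, [(true, y)], -1⟩,
  ⟨true, z, n x x, n y z, [(true, y)], 1⟩,
  ⟨false, z, n x x, n y z, [(false, y)], -1⟩,
  ⟨true, z, n z (n x x), y, [(true, y)], -1⟩,
  ⟨true, z, n z (n x x), y, [(false, y)], -1⟩,
  ⟨true, z, n x (n z x), y, [(true, y)], 1⟩,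
  ⟨true, z, n x (n x z), y, [(true, y)], 1⟩,
  ⟨true, z, n (n x x) z, y, [(true, y)], -1⟩,
  ⟨false, y, z, n z (n x x), [(true, y)], 1⟩,
  ⟨false, y, z, n x (n z x), [(true, y)], -1⟩,
  ⟨false, y, z, n x (n z x), [(false, y)], 1⟩,
  ⟨false, y, z, n x (n x z), [(true, y)], 1⟩,
  ⟨false, y, z, n (n z x) x, [(true, y)], 1⟩,
  ⟨false, y, z, n (n z x) x, [(false, y)], 1⟩,
  ⟨false, y, z, n (n x x) z, [(true, y)], 1⟩,
  ⟨false, y, z, n (n x x) z, [(false, y)], -1⟩,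
  ⟨true, y, x, n z (n z x), [(false, y)], 1⟩,
  ⟨true, y, x, n z (n x z), [(true, y)], -1⟩,
  ⟨false, y, x, n z (n x z), [(false, y)], 1⟩,
  ⟨true, y, x, n (n z x) z, [(true, y)], 1⟩,
  ⟨true, y, x, n (n z x) z, [(false, y)], -1⟩,
  ⟨true, y, x, n (n x z) z, [(true, y)], -1⟩,
  ⟨false, y, x, n (n x z) z, [(false, y)], -1⟩,
  ⟨false, y, n z x, n z x, [(false, y)], -1⟩,
  ⟨true, y, n z x, n x z, [(false, y)], 1⟩,
  ⟨false, y, n z x, n x z, [(true, y)], 1⟩,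
  ⟨false, y, n z x, n x z, [(false, y)], 1⟩,
  ⟨true, y, n x z, n z x, [(true, y)], -1⟩,
  ⟨true, y, n x z, n x z, [(true, y)], 1⟩,
  ⟨false, y, n x z, n x z, [(false, y)], 1⟩,
  ⟨true, y, n z (n x z), x, [(false, y)], 1⟩,
  ⟨true, y, n (n z x) z, x, [(false, y)], 1⟩,
  ⟨false, n z y, z, n x x, [(false, y)], -1⟩,
  ⟨false, x, z, n z (n y x), [(false, y)], 1⟩,
  ⟨false, x, z, n y (n z x), [(false, y)], 1⟩,
  ⟨false, x, z, n y (n x z), [(false, y)], 1⟩,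
  ⟨false, x, z, n (n z x) y, [(true, y)], 1⟩,
  ⟨false, x, z, n (n z x) y, [(false, y)], -1⟩,
  ⟨false, x, z, n (n x z) y, [(true, y)], -1⟩,
  ⟨false, x, z, n (n x y) z, [(true, y)], -1⟩,
  ⟨false, x, y, n z (n z x), [(false, y)], 1⟩,
  ⟨false, x, y, n z (n x z), [(true, y)], -1⟩,
  ⟨false, x, y, n (n z x) z, [(false, y)], -1⟩,
  ⟨false, x, y, n (n x z) z, [(true, y)], 1⟩,
  ⟨true, x, n z (n z x), y, [(false, y)], 1⟩,
  ⟨true, x, n (n z x) z, y, [(true, y)], 1⟩,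
  ⟨true, x, n (n z x) z, y, [(false, y)], -1⟩,
  ⟨true, x, n (n x z) z, y, [(true, y)], 1⟩,
  ⟨true, x, n z (n y x), z, [(false, y)], 1⟩,
  ⟨true, x, n y (n z x), z, [(true, y)], -1⟩,
  ⟨true, x, n y (n z x), z, [(false, y)], 1⟩,
  ⟨true, x, n y (n x z), z, [(true, y)], -1⟩,
  ⟨true, x, n y (n x z), z, [(false, y)], 1⟩,
  ⟨true, x, n (n z x) y, z, [(true, y)], 1⟩,
  ⟨true, x, n (n z x) y, z, [(false, y)], -1⟩,
  ⟨true, x, n (n x z) y, z, [(true, y)], -1⟩,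
  ⟨true, x, n (n x y) z, z, [(true, y)], -1⟩,
  ⟨false, n z x, z, n y x, [(true, y)], -1⟩,
  ⟨false, n z x, z, n y x, [(false, y)], 1⟩]

/-- relations of the certificate -/
def C9 : List It := [
  ⟨false, n x z, z, n x y, [(true, y)], -1⟩,
  ⟨false, n z x, y, n x z, [(true, y)], -1⟩,
  ⟨false, n x z, y, n z x, [(true, y)], 1⟩,
  ⟨false, n y x, z, n z x, [(true, y)], -1⟩,
  ⟨false, n y x, z, n z x, [(false, y)], 1⟩,
  ⟨false, n y x, z, n x z, [(true, y)], 1⟩,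
  ⟨false, n y x, z, n x z, [(false, y)], -1⟩,
  ⟨false, n x y, z, n z x, [(true, y)], -1⟩,
  ⟨false, n x x, z, n z y, [(true, y)], 1⟩,
  ⟨false, n x x, z, n y z, [(true, y)], 1⟩,
  ⟨true, z, y, n x x, [(true, z), (true, y)], 1⟩,
  ⟨true, z, y, n x x, [(true, z), (false, y)], -1⟩,
  ⟨true, z, y, n x x, [(false, z), (false, y)], 1⟩,
  ⟨false, z, y, n x x, [(true, z), (true, y)], -1⟩,
  ⟨false, z, x, n y x, [(false, z), (false, y)], 1⟩,
  ⟨false, z, x, n x y, [(true, z), (false, y)], -1⟩,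
  ⟨true, z, n x y, x, [(true, z), (false, y)], 1⟩,
  ⟨false, y, z, n x x, [(true, z), (true, y)], 1⟩,
  ⟨true, y, x, n z x, [(true, z), (false, y)], -1⟩,
  ⟨false, y, x, n z x, [(false, z), (false, y)], -1⟩,
  ⟨true, y, x, n x z, [(true, z), (false, y)], -1⟩,
  ⟨false, y, x, n x z, [(true, z), (false, y)], -1⟩,
  ⟨false, y, x, n x z, [(false, z), (false, y)], 1⟩,
  ⟨true, y, n z x, x, [(true, z), (false, y)], 1⟩,
  ⟨true, y, n z x, x, [(false, z), (false, y)], -1⟩,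
  ⟨true, y, n x z, x, [(true, z), (false, y)], 1⟩,
  ⟨false, x, z, n y x, [(true, z), (false, y)], -1⟩,
  ⟨false, x, y, n x z, [(true, z), (true, y)], 1⟩,
  ⟨false, x, y, n x z, [(true, z), (false, y)], -1⟩,
  ⟨true, x, n x z, y, [(true, z), (false, y)], 1⟩,
  ⟨true, x, n y x, z, [(true, z), (false, y)], 1⟩,
  ⟨true, x, n x y, z, [(true, z), (true, y)], 1⟩,
  ⟨true, y, x, x, [(true, z), (true, z), (false, y)], -1⟩,
  ⟨false, x, y, x, [(true, z), (true, z), (false, y)], -1⟩,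
  ⟨false, x, y, x, [(true, z), (false, z), (false, y)], -1⟩,
  ⟨true, z, x, x, [(true, y), (false, z), (false, y)], -1⟩,
  ⟨true, z, x, x, [(false, y), (true, z), (true, y)], 1⟩,
  ⟨true, z, x, x, [(false, y), (true, z), (false, y)], 1⟩,
  ⟨false, x, z, x, [(false, y), (true, z), (true, y)], 1⟩,
  ⟨false, z, z, n x x, [(false, y), (true, y)], -1⟩,
  ⟨true, z, x, n z x, [(false, y), (true, y)], 1⟩,
  ⟨false, z, x, n z x, [(true, y), (false, y)], -1⟩,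
  ⟨false, z, x, n z x, [(false, y), (false, y)], -1⟩,
  ⟨true, z, x, n x z, [(true, y), (false, y)], -1⟩,
  ⟨false, z, x, n x z, [(true, y), (false, y)], -1⟩,
  ⟨false, z, x, n x z, [(false, y), (true, y)], 1⟩,
  ⟨true, z, n z x, x, [(true, y), (false, y)], 1⟩,
  ⟨true, z, n z x, x, [(false, y), (true, y)], 1⟩,
  ⟨true, z, n z x, x, [(false, y), (false, y)], -1⟩,
  ⟨true, z, n x z, x, [(true, y), (false, y)], 1⟩,
  ⟨true, z, n x z, x, [(false, y), (true, y)], -1⟩,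
  ⟨false, x, z, n z x, [(true, y), (false, y)], -1⟩,
  ⟨false, x, z, n z x, [(false, y), (true, y)], -1⟩,
  ⟨false, x, z, n x z, [(true, y), (true, y)], 1⟩,
  ⟨false, x, z, n x z, [(true, y), (false, y)], 1⟩,
  ⟨true, x, n z z, x, [(false, y), (true, y)], -1⟩,
  ⟨true, x, n z x, z, [(true, y), (true, y)], -1⟩,
  ⟨true, x, n z x, z, [(true, y), (false, y)], -1⟩,
  ⟨false, z, z, x, [(true, x), (false, y), (true, y)], -1⟩,
  ⟨false, z, z, x, [(false, x), (false, y), (true, y)], 1⟩,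
  ⟨true, z, x, z, [(false, x), (false, y), (true, y)], 1⟩]

/-- the certificate -/
def CC : List It := C0 ++ (C1 ++ (C2 ++ (C3 ++ (C4 ++ (C5 ++ (C6 ++ (C7 ++ (C8 ++ (C9)))))))))

/-- terms of the polynomial -/
def F0 : List (ℤ × T) := [
  (1, n z (n z (n x (n (n x y) y)))),
  (-1, n z (n z (n (n y x) (n y x)))),
  (1, n z (n z (n (n x y) (n x y)))),
  (1, n z (n z (n (n x x) (n y y)))),
  (-1, n z (n z (n (n x (n x y)) y))),
  (-1, n z (n z (n (n (n y x) x) y))),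
  (-1, n z (n y (n y (n (n x x) z)))),
  (1, n z (n y (n x (n (n x y) z)))),
  (-1, n z (n y (n (n x z) (n x y)))),
  (-1, n z (n y (n (n y x) (n x z)))),
  (-1, n z (n y (n (n x x) (n z y)))),
  (1, n z (n y (n (n x x) (n y z)))),
  (1, n z (n y (n (n x (n z x)) y))),
  (1, n z (n y (n (n (n x x) z) y))),
  (1, n z (n y (n (n (n y x) x) z))),
  (-1, n z (n (n y z) (n (n x x) y))),
  (1, n z (n (n z x) (n y (n x y)))),
  (-1, n z (n (n x z) (n y (n x y)))),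
  (-1, n z (n (n x z) (n (n y x) y))),
  (1, n z (n (n y x) (n z (n x y)))),
  (-1, n z (n (n x y) (n (n z x) y))),
  (1, n z (n (n z (n y x)) (n y x))),
  (-1, n z (n (n z (n x y)) (n x y))),
  (-1, n z (n (n (n z x) y) (n x y))),
  (-1, n z (n (n (n y x) z) (n x y))),
  (1, n z (n (n y (n y x)) (n x z))),
  (-1, n z (n (n (n y x) y) (n x z))),
  (1, n z (n (n x x) (n z (n y y)))),
  (1, n z (n (n x x) (n y (n y z)))),
  (-1, n z (n (n z (n x x)) (n y y))),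
  (-1, n z (n (n (n x x) z) (n y y))),
  (1, n z (n (n y (n x x)) (n z y))),
  (-1, n z (n (n (n x x) y) (n y z))),
  (-1, n z (n (n z (n x (n y x))) y)),
  (1, n z (n (n z (n (n x x) y)) y)),
  (-1, n z (n (n y (n x (n x z))) y)),
  (-1, n z (n (n y (n (n z x) x)) y)),
  (-1, n z (n (n y (n (n x z) x)) y)),
  (-1, n z (n (n x (n z (n x y))) y)),
  (-1, n z (n (n x (n y (n z x))) y)),
  (-1, n z (n (n x (n (n y x) z)) y)),
  (1, n z (n (n (n x y) (n z x)) y)),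
  (1, n z (n (n (n y (n z x)) x) y)),
  (1, n z (n (n (n y (n x z)) x) y)),
  (1, n z (n (n (n (n x z) y) x) y)),
  (-1, n z (n (n (n z (n x x)) y) y)),
  (1, n z (n (n (n x (n z x)) y) y)),
  (1, n z (n (n (n y (n x x)) z) y)),
  (1, n z (n (n y (n (n x y) x)) z)),
  (1, n z (n (n x (n y (n y x))) z)),
  (-1, n z (n (n (n y x) (n x y)) z)),
  (1, n z (n (n (n x y) (n x y)) z)),
  (-1, n z (n (n (n y (n y x)) x) z)),
  (-1, n z (n (n (n y (n x y)) x) z)),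
  (1, n y (n z (n z (n (n x x) y)))),
  (-1, n y (n z (n (n x x) (n y z)))),
  (-1, n y (n z (n (n z (n x x)) y))),
  (1, n y (n z (n (n y (n x x)) z))),
  (-1, n y (n y (n (n x (n z x)) z))),
  (1, n y (n y (n (n x (n x z)) z)))]

/-- terms of the polynomial -/
def F1 : List (ℤ × T) := [
  (1, n y (n (n y z) (n (n x x) z))),
  (-1, n y (n x (n y (n (n x z) z)))),
  (1, n y (n (n x z) (n z (n x y)))),
  (1, n y (n (n (n z x) z) (n x y))),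
  (1, n y (n (n y x) (n (n z x) z))),
  (-1, n y (n (n y x) (n (n x z) z))),
  (1, n y (n (n x y) (n (n x z) z))),
  (-1, n y (n (n (n x y) z) (n x z))),
  (-1, n y (n (n x x) (n z (n y z)))),
  (-1, n y (n (n z (n x x)) (n z y))),
  (1, n y (n (n z (n x x)) (n y z))),
  (1, n y (n (n (n x x) z) (n y z))),
  (1, n y (n (n x (n z (n z x))) y)),
  (1, n y (n (n x (n (n z x) z)) y)),
  (-1, n y (n (n (n (n x z) z) x) y)),
  (-1, n y (n (n (n x (n z x)) z) y)),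
  (-1, n y (n (n y (n z (n x x))) z)),
  (-1, n (n z y) (n (n x x) (n y z))),
  (-1, n (n y z) (n z (n (n x x) y))),
  (1, n (n y z) (n (n y z) (n x x))),
  (1, n (n y z) (n (n x x) (n y z))),
  (-1, n (n y z) (n (n y (n x x)) z)),
  (1, n (n z (n y z)) (n (n x x) y)),
  (-1, n (n y (n y z)) (n (n x x) z)),
  (1, n (n (n z y) y) (n (n x x) z)),
  (-1, n (n (n y z) (n y z)) (n x x)),
  (-1, n (n z x) (n y (n (n y x) z))),
  (1, n (n z x) (n (n z (n x y)) y)),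
  (1, n (n z x) (n (n (n y x) z) y)),
  (1, n (n z (n x y)) (n (n z x) y)),
  (1, n (n (n z x) y) (n (n y x) z)),
  (-1, n (n y (n y x)) (n z (n x z))),
  (1, n (n y (n x y)) (n z (n x z))),
  (1, n (n z (n y (n x y))) (n x z)),
  (1, n (n z (n (n y x) y)) (n x z)),
  (-1, n (n (n y (n x y)) z) (n x z)),
  (-1, n (n z (n x x)) (n y (n y z))),
  (1, n (n y (n x x)) (n z (n y z))),
  (-1, n (n z (n y (n x x))) (n z y)),
  (-1, n (n y (n z (n x x))) (n y z)),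
  (1, n (n (n z (n x x)) y) (n y z)),
  (-1, n (n (n y (n x x)) z) (n y z)),
  (1, n (n z (n z (n y (n x x)))) y),
  (1, n (n z (n y (n x (n x z)))) y),
  (1, n (n z (n (n y z) (n x x))) y),
  (-1, n (n z (n (n z x) (n x y))) y),
  (-1, n (n z (n (n x z) (n y x))) y),
  (-2, n (n z (n (n y x) (n x z))) y),
  (1, n (n z (n (n (n z x) y) x)) y),
  (1, n (n y (n z (n x (n x z)))) y),
  (-1, n (n y (n x (n z (n x z)))) y),
  (1, n (n y (n x (n (n z x) z))) y),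
  (-1, n (n y (n (n z x) (n x z))) y),
  (-1, n (n y (n (n x z) (n z x))) y),
  (1, n (n (n y z) (n z (n x x))) y),
  (-1, n (n (n z (n y z)) (n x x)) y),
  (-1, n (n (n z x) (n z (n x y))) y),
  (-1, n (n (n z x) (n (n y x) z)) y),
  (1, n (n (n z (n z x)) (n x y)) y),
  (1, n (n (n z (n x z)) (n y x)) y)]

/-- terms of the polynomial -/
def F2 : List (ℤ × T) := [
  (1, n (n (n (n z x) z) (n y x)) y),
  (-1, n (n (n y x) (n (n z x) z)) y),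
  (1, n (n (n z (n y x)) (n x z)) y),
  (-1, n (n (n y (n z x)) (n z x)) y),
  (1, n (n (n y (n z x)) (n x z)) y),
  (1, n (n (n y (n x z)) (n x z)) y),
  (1, n (n (n z (n (n z x) x)) y) y),
  (-1, n (n (n (n z (n z x)) x) y) y),
  (1, n (n (n y (n z (n x x))) z) y),
  (1, n (n (n (n z x) (n y x)) z) y),
  (-1, n (n (n (n y (n z x)) x) z) y),
  (1, n (n z (n y (n x (n y x)))) z),
  (-1, n (n z (n y (n (n x y) x))) z),
  (1, n (n z (n y (n (n x x) y))) z),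
  (-1, n (n z (n (n y y) (n x x))) z),
  (-1, n (n z (n x (n y (n y x)))) z),
  (1, n (n z (n x (n y (n x y)))) z),
  (-1, n (n z (n (n y x) (n y x))) z),
  (-1, n (n z (n (n x y) (n x y))) z),
  (-1, n (n z (n (n x (n y x)) y)) z),
  (1, n (n z (n (n (n x y) x) y)) z),
  (-1, n (n z (n (n (n x x) y) y)) z),
  (-1, n (n y (n z (n x (n x y)))) z),
  (1, n (n y (n y (n x (n z x)))) z),
  (-1, n (n y (n y (n x (n x z)))) z),
  (-1, n (n y (n y (n (n z x) x))) z),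
  (1, n (n y (n x (n z (n x y)))) z),
  (-1, n (n y (n x (n y (n z x)))) z),
  (-1, n (n y (n (n z x) (n y x))) z),
  (-1, n (n y (n (n x z) (n x y))) z),
  (1, n (n y (n (n y (n z x)) x)) z),
  (1, n (n y (n (n (n x y) z) x)) z),
  (1, n (n (n z y) (n y (n x x))) z),
  (-1, n (n (n z y) (n x (n x y))) z),
  (1, n (n (n y z) (n x (n x y))) z),
  (1, n (n (n z (n y y)) (n x x)) z),
  (1, n (n (n y (n y z)) (n x x)) z),
  (-1, n (n (n (n z y) y) (n x x)) z),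
  (-1, n (n (n z x) (n y (n x y))) z),
  (-1, n (n (n y x) (n z (n x y))) z),
  (1, n (n (n y x) (n y (n z x))) z),
  (1, n (n (n z (n y x)) (n x y)) z),
  (1, n (n (n y (n z x)) (n y x)) z),
  (1, n (n (n (n y x) z) (n x y)) z),
  (1, n (n (n y (n y x)) (n x z)) z),
  (-1, n (n (n y (n x y)) (n x z)) z),
  (1, n (n (n (n y x) y) (n x z)) z),
  (1, n (n (n z (n x x)) (n y y)) z),
  (-1, n (n (n z (n (n y x) x)) y) z),
  (1, n (n (n z (n (n x x) y)) y) z),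
  (1, n (n (n y (n z (n x x))) y) z),
  (-1, n (n (n (n y z) (n x x)) y) z),
  (-1, n (n (n (n z (n x x)) y) y) z)]

/-- the polynomial in three odd variables, of degree two in each of them -/
def FF : List (ℤ × T) := F0 ++ (F1 ++ (F2))

theorem check_ok : check 3 FF CC = true := by decide +kernel

end Q12.AltTor
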