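import Pool.Agent.Q12.AltTor.Model
import Pool.Agent.Helper805.Nuc.Free

/-! The Grassmann envelope of the 18-dimensional superalgebra, and a nonzero value of the polynomial. -/

set_option autoImplicit false

namespace Q12.AltTor

open Pool.Agent.Helper805.Nuc.SuperK Pool.Agent.Helper805.Nuc.Tens Pool.Agent.Helper805.Nuc.Ext
open T

section
variable (K : Type) [Field K]

/-- the exterior algebra -/
abbrev Lam : Type := ExteriorAlgebra K (Fin 6 → K)

/-- even and odd parts -/
noncomputable def part (b : ℕ) : Submodule K (Lam K) :=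
  Submodule.span K {u | ∃ l : List (Fin 6), l.length % 2 = b ∧ u = E K 6 l}

variable {K}

lemma E_mem (l : List (Fin 6)) : E K 6 l ∈ part K (l.length % 2) :=
  Submodule.subset_span ⟨l, rfl, rfl⟩

lemma part_mul {a b : ℕ} {u v : Lam K} (hu : u ∈ part K a) (hv : v ∈ part K b) : u * v ∈ part K ((a + b) % 2) := by
  induction hu using Submodule.span_induction with
  | mem u hu =>
    obtain ⟨l, hl, rfl⟩ := hu
    induction hv using Submodule.span_induction with
    | mem v hv =>
      obtain ⟨l', hl', rfl⟩ := hv
      have h : E K 6 l * E K 6 l' = E K 6 (l ++ l') := (E_append K 6 l l').symm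
      rw [h]
      have h2 := E_mem (K := K) (l ++ l')
      have h3 : (l ++ l').length % 2 = (a + b) % 2 := by
        rw [List.length_append]; omega
      rwa [h3] at h2
    | zero => rw [mul_zero]; exact Submodule.zero_mem _
    | add x y _ _ hx hy => rw [mul_add]; exact Submodule.add_mem _ hx hy
    | smul r x _ hx => rw [mul_smul_comm]; exact Submodule.smul_mem _ _ hx
  | zero => rw [zero_mul]; exact Submodule.zero_mem _
  | add x y _ _ hx hy => rw [add_mul]; exact Submodule.add_mem _ hx hy
  | smul r x _ hx => rw [smul_mul_assoc]; exact Submodule.smul_mem _ _ hx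

lemma part_swap {a b : ℕ} {u v : Lam K} (ha : a < 2) (hb : b < 2) (hu : u ∈ part K a) (hv : v ∈ part K b) :
    u * v = (if a * b = 1 then (-1 : K) else 1) • (v * u) := by
  induction hu using Submodule.span_induction with
  | mem u hu =>
    obtain ⟨l, hl, rfl⟩ := hu
    induction hv using Submodule.span_induction with
    | mem v hv =>
      obtain ⟨l', hl', rfl⟩ := hv
      have h := E_swap K 6 l l'
      rw [h]
      split_ifs with hab
      · have h1 : a = 1 := Nat.eq_one_of_mul_eq_one_right hab
        have h2 : b = 1 := Nat.eq_one_of_mul_eq_one_left hab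
        have : Odd (l.length * l'.length) :=
          (Nat.odd_iff.mpr (by omega)).mul (Nat.odd_iff.mpr (by omega))
        rw [this.neg_one_pow, neg_one_smul, neg_one_mul]
      · have : Even (l.length * l'.length) := by
          rcases Nat.lt_or_ge 0 a with h1 | h1
          · rcases Nat.lt_or_ge 0 b with h2 | h2
            · have h3 : a = 1 := by omega
              have h4 : b = 1 := by omega
              rw [h3, h4] at hab
              exact absurd rfl hab
            · exact (Nat.even_iff.mpr (by omega)).mul_left _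
          · exact (Nat.even_iff.mpr (by omega)).mul_right _
        rw [this.neg_one_pow, one_smul, one_mul]
    | zero => rw [mul_zero, zero_mul, smul_zero]
    | add x y _ _ hx hy => rw [mul_add, add_mul, smul_add, hx, hy]
    | smul r x _ hx => rw [mul_smul_comm, smul_mul_assoc, hx, smul_comm]
  | zero => rw [mul_zero, zero_mul, smul_zero]
  | add x y _ _ hx hy => rw [mul_add, add_mul, smul_add, hx, hy]
  | smul r x _ hx => rw [mul_smul_comm, smul_mul_assoc, hx, smul_comm]

variable (K) in
/-- the exterior algebra as a super ring -/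
noncomputable def G0 : SuperRing K (Lam K) where
  part := part K
  mul_mem := part_mul
  swap := part_swap

variable (K) in
/-- the ambient algebra -/
def R : Type := Fin 18 → Lam K

namespace R
noncomputable instance : AddCommGroup (R K) := inferInstanceAs (AddCommGroup (Fin 18 → Lam K))
noncomputable instance : Module K (R K) := inferInstanceAs (Module K (Fin 18 → Lam K))
noncomputable instance : Mul (R K) := ⟨fun v w => rmul (K := K) (D := D18) v w⟩

lemma mul_def (v w : R K) : v * w = rmul (K := K) (D := D18) v w := rfl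

noncomputable instance : NonUnitalNonAssocRing (R K) where
  left_distrib := fun a b c => rmul_add (D := D18) a b c
  right_distrib := fun a b c => add_rmul (D := D18) a b c
  zero_mul := by
    intro a
    have h2 := smul_rmul (D := D18) (0 : K) (0 : Fin 18 → Lam K) a
    rw [zero_smul, zero_smul] at h2
    exact h2
  mul_zero := by
    intro a
    have h2 := rmul_smul (D := D18) (0 : K) a (0 : Fin 18 → Lam K)
    rw [zero_smul, zero_smul] at h2
    exact h2

instance : IsScalarTower K (R K) (R K) := ⟨fun r a b => smul_rmul (D := D18) r a b⟩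
instance : SMulCommClass K (R K) (R K) := ⟨fun r a b => (rmul_smul (D := D18) r a b).symm⟩
end R

/-- the Grassmann envelope as a subalgebra -/
noncomputable def BS (h3 : (3 : K) = 0) : NonUnitalSubalgebra K (R K) where
  carrier := {v | v ∈ env (G0 K) D18}
  add_mem' := fun ha hb => (env (G0 K) D18).add_mem ha hb
  zero_mem' := (env (G0 K) D18).zero_mem
  mul_mem' := fun ha hb => rmul_mem (G0 K) (good18 h3) ha hb
  smul_mem' := fun r _ ha => (env (G0 K) D18).smul_mem r ha

lemma two_ne (h3 : (3 : K) = 0) : (2 : K) ≠ 0 := by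
  intro h
  have : (1 : K) = 3 - 2 := by norm_num
  rw [h3, h, sub_zero] at this
  exact one_ne_zero this

lemma BS_alt (h3 : (3 : K) = 0) : IsAlt (BS h3) where
  left := by
    intro x y
    apply Subtype.ext
    funext l
    exact left_alt (G0 K) (two_ne h3) (good18 h3) (x.2) l
  right := by
    intro x y
    apply Subtype.ext
    funext l
    exact right_alt (G0 K) (two_ne h3) (good18 h3) (x.2) l

/-- sparse tensors -/
noncomputable def tl (L : List (ℕ × ℕ)) (u : Lam K) : R K := fun k => cf K k L • u

/-- product of sparse vectors -/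
def mulL (L L' : List (ℕ × ℕ)) : List (ℕ × ℕ) := bnd (fun i => bnd (fun j => T18 i j) L') L

/-- keys are indices -/
def Ok (L : List (ℕ × ℕ)) : Prop := ∀ p ∈ L, p.1 < 18

lemma ok_scl (a : ℕ) {L : List (ℕ × ℕ)} (h : Ok L) : Ok (scl a L) := by
  induction L with
  | nil => exact h
  | cons q L ih =>
    rw [scl]
    intro p hp
    rcases List.mem_cons.mp hp with h1 | h1
    · rw [h1]; exact h q (by simp)
    · exact ih (fun p hp => h p (by simp [hp])) p h1

lemma ok_append {L L' : List (ℕ × ℕ)} (h : Ok L) (h' : Ok L') : Ok (L ++ L') := by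
  intro p hp
  rcases List.mem_append.mp hp with h1 | h1
  · exact h p h1
  · exact h' p h1

lemma ok_bnd (f : ℕ → List (ℕ × ℕ)) {L : List (ℕ × ℕ)} (hf : ∀ q ∈ L, Ok (f q.1)) : Ok (bnd f L) := by
  induction L with
  | nil => intro p hp; simp [bnd] at hp
  | cons q L ih =>
    rw [bnd]
    exact ok_append (ok_scl _ (hf q (by simp))) (ih (fun q hq => hf q (by simp [hq])))

lemma ok_mulL {L L' : List (ℕ × ℕ)} (h : Ok L) (h' : Ok L') : Ok (mulL L L') :=
  ok_bnd _ (fun q hq => ok_bnd _ (fun q' hq' => fun p hp => (chkP_at (h q hq) (h' q' hq') p hp).2))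

lemma cf_bnd_sum {L : List (ℕ × ℕ)} (hL : Ok L) (f : ℕ → List (ℕ × ℕ)) (k : ℕ) :
    cf K k (bnd f L) = ∑ i : Fin 18, cf K i L * cf K k (f i) := by
  rw [cf_bnd]
  have h := sum_cf K (N := 18) L hL (fun i => cf K k (f i))
  simp only [smul_eq_mul] at h ⊢
  exact h.symm

lemma tl_mul {L L' : List (ℕ × ℕ)} (hL : Ok L) (hL' : Ok L') (u v : Lam K) :
    tl L u * tl L' v = tl (mulL L L') (u * v) := by
  rw [R.mul_def]
  funext k
  show ∑ i : Fin 18, ∑ j : Fin 18, D18.c K i j k • ((cf K i L • u) * (cf K j L' • v)) = cf K k (mulL L L') • (u * v)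
  have h2 : ∀ i j : Fin 18, D18.c K i j k • ((cf K i L • u) * (cf K j L' • v)) =
      (cf K i L * (cf K j L' * cf K k (T18 i j))) • (u * v) := by
    intro i j
    rw [smul_mul_assoc, mul_smul_comm, smul_smul, smul_smul]
    congr 1
    show cf K k (T18 i j) * cf K i L * cf K j L' = _
    ring
  simp only [h2]
  unfold mulL
  rw [cf_bnd_sum hL, Finset.sum_smul]
  refine Finset.sum_congr rfl fun i _ => ?_
  rw [cf_bnd_sum hL', Finset.mul_sum, Finset.sum_smul]

/-- the value of a monomial in the superalgebra -/
def evT : T → List (ℕ × ℕ)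
  | g i => [(2 - 2 * i % 6 / 2, 1)]
  | n a b => mulL (evT a) (evT b)

lemma ok_evT : ∀ t : T, Ok (evT t)
  | g i => by
      intro p hp
      have : p = (2 - 2 * i % 6 / 2, 1) := by simpa [evT] using hp
      rw [this]
      show 2 - 2 * i % 6 / 2 < 18
      omega
  | n a b => ok_mulL (ok_evT a) (ok_evT b)

/-- the six arguments -/
noncomputable def ar (j : ℕ) : R K := tl [(2 - j % 6 / 2, 1)] (E K 6 [fi j])

lemma ar_mem (h3 : (3 : K) = 0) (j : ℕ) : (ar j : R K) ∈ BS h3 := by
  intro i
  show cf K i [(2 - j % 6 / 2, 1)] • E K 6 [fi j] ∈ part K (D18.par i)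
  by_cases h : 2 - j % 6 / 2 = (i : ℕ)
  · have h1 : D18.par i = 1 := by
      rw [← h]
      have : 2 - j % 6 / 2 = 0 ∨ 2 - j % 6 / 2 = 1 ∨ 2 - j % 6 / 2 = 2 := by omega
      rcases this with h2 | h2 | h2 <;> rw [h2] <;> rfl
    rw [h1]
    exact Submodule.smul_mem _ _ (E_mem [fi j])
  · have : cf K i [(2 - j % 6 / 2, 1)] = 0 := by simp [cf, h]
    rw [this, zero_smul]
    exact Submodule.zero_mem _

lemma ev_ar : ∀ (t : T), ∀ q ∈ lab t, ev (ar (K := K)) q.1 = tl (evT t) (E K 6 q.2)
  | g i => by
      intro q hq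
      simp only [lab, List.mem_cons, List.not_mem_nil, or_false] at hq
      rcases hq with h | h
      · rw [h]
        rfl
      · rw [h]
        show tl [(2 - (2 * i + 1) % 6 / 2, 1)] (E K 6 [fi (2 * i + 1)]) =
          tl [(2 - 2 * i % 6 / 2, 1)] (E K 6 [fi (2 * i + 1)])
        have : (2 * i + 1) % 6 / 2 = 2 * i % 6 / 2 := by omega
        rw [this]
  | n a b => by
      intro q hq
      rw [lab, List.mem_flatMap] at hq
      obtain ⟨p, hp, hq⟩ := hq
      rw [List.mem_map] at hq
      obtain ⟨r, hr, rfl⟩ := hq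
      show ev ar p.1 * ev ar r.1 = tl (mulL (evT a) (evT b)) (E K 6 (p.2 ++ r.2))
      rw [ev_ar a p hp, ev_ar b r hr, tl_mul (ok_evT a) (ok_evT b), E_append]

lemma lab_length : ∀ (t : T), ∀ q ∈ lab t, q.2.length = deg t
  | g i => by
      intro q hq
      simp only [lab, List.mem_cons, List.not_mem_nil, or_false] at hq
      rcases hq with h | h <;> rw [h] <;> rfl
  | n a b => by
      intro q hq
      rw [lab, List.mem_flatMap] at hq
      obtain ⟨p, hp, hq⟩ := hq
      rw [List.mem_map] at hq
      obtain ⟨r, hr, rfl⟩ := hq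
      show (p.2 ++ r.2).length = deg a + deg b
      rw [List.length_append, lab_length a p hp, lab_length b r hr]

/-- the sign squared -/
lemma tau_sq {l : List (Fin 6)} (hl : l.length = 6) :
    (tau l : K) * top K 6 (E K 6 l) = if l.Nodup then 1 else 0 := by
  obtain ⟨r, rfl⟩ : ∃ r : Fin 6 → Fin 6, l = List.ofFn r := by
    have : ∀ m, l.length = m → ∃ r : Fin m → Fin 6, l = List.ofFn r := by
      rintro m rfl
      exact ⟨l.get, (List.ofFn_get l).symm⟩
    exact this 6 hl
  by_cases hr : Function.Injective r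
  · rw [if_pos (List.nodup_ofFn.mpr hr)]
    let σ : Equiv.Perm (Fin 6) := Equiv.ofBijective r ((Finite.injective_iff_bijective).mp hr)
    have e : ∀ (F : Type) [CommRing F], top F 6 (E F 6 (List.ofFn r)) = ((Equiv.Perm.sign σ : ℤˣ) : ℤ) • (1 : F) := by
      intro F _
      have h := E_perm F 6 6 (fun i : Fin 6 => i) σ
      have h2 : (fun i => (fun i : Fin 6 => i) (σ i)) = r := rfl
      rw [h2] at h
      rw [h, map_zsmul, top_E]
    unfold tau
    rw [e ℤ, e K]
    simp only [zsmul_eq_mul, mul_one, Int.cast_id]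
    rw [← Int.cast_mul, ← Units.val_mul, Int.units_mul_self]
    simp
  · rw [if_neg (fun h => hr (List.nodup_ofFn.mp h)), E_noninj K 6 6 r hr, map_zero, mul_zero]

/-- the functional on the ambient algebra -/
noncomputable def theta : R K →ₗ[K] K where
  toFun v := top K 6 (v 17)
  map_add' v w := map_add (top K 6) (v 17) (w 17)
  map_smul' r v := map_smul (top K 6) r (v 17)

lemma theta_tl (L : List (ℕ × ℕ)) (u : Lam K) : theta (tl L u) = cf K 17 L * top K 6 u := by
  show top K 6 (cf K 17 L • u) = _
  rw [map_smul, smul_eq_mul]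

lemma theta_term (t : T) (ht : deg t = 6) :
    theta ((lab t).map fun q => tau q.2 • ev (ar (K := K)) q.1).sum =
      (((lab t).countP fun q => decide q.2.Nodup : ℕ) : K) * cf K 17 (evT t) := by
  have h1 : ∀ L : List (T × List (Fin 6)), (∀ q ∈ L, q ∈ lab t) →
      theta (L.map fun q => tau q.2 • ev (ar (K := K)) q.1).sum =
        ((L.countP fun q => decide q.2.Nodup : ℕ) : K) * cf K 17 (evT t) := by
    intro L hL
    induction L with
    | nil => simp
    | cons q L ih =>
      rw [List.map_cons, List.sum_cons, map_add, ih (fun q hq => hL q (by simp [hq])), map_zsmul,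
        ev_ar t q (hL q (by simp)), theta_tl, List.countP_cons]
      have h2 := tau_sq (K := K) (l := q.2) ((lab_length t q (hL q (by simp))).trans ht)
      have h4 : tau q.2 • (cf K 17 (evT t) * top K 6 (E K 6 q.2)) =
          cf K 17 (evT t) * ((tau q.2 : K) * top K 6 (E K 6 q.2)) := by
        rw [zsmul_eq_mul]; ring
      rw [h4, h2]
      by_cases hn : q.2.Nodup
      · simp [hn]; ring
      · simp [hn]
  exact h1 (lab t) (fun q hq => hq)

/-- the check for the terms of the polynomial -/
def chkF : Bool := FF.all fun p => Nat.beq (deg p.2) 6 && Nat.beq ((lab p.2).countP fun q => decide q.2.Nodup) 8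

theorem chkF_ok : chkF = true := by decide +kernel

/-- the value of the polynomial in the superalgebra -/
def valF : List (ℤ × T) → ℤ
  | [] => 0
  | p :: L => p.1 * ((ks 17 (evT p.2) : ℕ) : ℤ) + valF L

theorem valF_ok : valF FF % 3 = 1 := by decide +kernel

lemma theta_pol (F : List (ℤ × T)) (hF : ∀ p ∈ F, deg p.2 = 6 ∧ ((lab p.2).countP fun q => decide q.2.Nodup) = 8) :
    theta (pol F (ar (K := K))) = 8 * (valF F : K) := by
  induction F with
  | nil => simp [pol, valF]
  | cons p F ih =>
    have h1 : pol (p :: F) (ar (K := K)) =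
        p.1 • ((lab p.2).map fun q => tau q.2 • ev (ar (K := K)) q.1).sum + pol F ar := by simp [pol]
    rw [h1, map_add, ih (fun q hq => hF q (by simp [hq])), map_zsmul, theta_term p.2 (hF p (by simp)).1,
      (hF p (by simp)).2, ← ks_cast, valF, zsmul_eq_mul]
    push_cast
    ring

theorem theta_ne (h3 : (3 : K) = 0) : theta (pol FF (ar (K := K))) ≠ 0 := by
  rw [theta_pol FF (fun p hp => by
    have h := List.all_eq_true.mp chkF_ok p hp
    rw [Bool.and_eq_true] at h
    exact ⟨Nat.eq_of_beq_eq_true h.1, Nat.eq_of_beq_eq_true h.2⟩)]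
  have h1 : (valF FF : K) = 1 := by
    have h2 : valF FF = 3 * (valF FF / 3) + 1 := by
      have := Int.mul_ediv_add_emod (valF FF) 3
      rw [valF_ok] at this
      exact this.symm
    rw [h2]
    push_cast
    rw [h3]; ring
  rw [h1]
  have h8 : (8 : K) * 1 = -1 := by
    have : (8 : K) * 1 = 3 * 3 - 1 := by norm_num
    rw [this, h3]; ring
  rw [h8]
  exact neg_ne_zero.mpr one_ne_zero

lemma ar_fi (j : ℕ) : ar (K := K) (fi j).val = ar j := by
  unfold ar
  have h1 : (fi j).val % 6 = j % 6 := Nat.mod_mod j 6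
  have h2 : fi (fi j).val = fi j := Fin.ext (Nat.mod_mod j 6)
  rw [h1, h2]

end

end Q12.AltTor
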