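import Pool.Agent.Q12.AltTor.Env

/-! Three-torsion in free alternative rings. -/

set_option autoImplicit false

namespace Q12.AltTor

open Pool.Agent.Helper805.Nuc.Tens Pool.Agent.Helper805.Nuc.Free

section
variable {Φ : Type} [CommRing Φ] {X : Type}

/-- the torsion element -/
noncomputable def tw (ι : Fin 6 → X) : FreeAlt Φ X := pol FF (fun j => FreeAlt.gen (ι (fi j)))

lemma three_tw (ι : Fin 6 → X) : (3 : ℤ) • (tw ι : FreeAlt Φ X) = 0 := three_pol FreeAlt.isAlt _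

/-- a functional not vanishing on the torsion element -/
theorem functional {K : Type} [Field K] (h3 : (3 : K) = 0) (φ : Φ →+* K) (ι : Fin 6 → X)
    (hι : Function.Injective ι) :
    ∃ L : FreeAlt Φ X →+ K, (∀ (r : Φ) (a : FreeAlt Φ X), L (r • a) = φ r * L a) ∧ L (tw ι) ≠ 0 := by
  classical
  letI : Module Φ (BS h3) := Module.compHom (BS h3) φ
  haveI : IsScalarTower Φ (BS h3) (BS h3) := ⟨fun r a b => smul_mul_assoc (φ r) a b⟩
  haveI : SMulCommClass Φ (BS h3) (BS h3) := ⟨fun r a b => (mul_smul_comm (φ r) a b).symm⟩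
  let f : X → BS h3 := fun x => if h : ∃ i, ι i = x then ⟨ar h.choose.val, ar_mem h3 _⟩ else 0
  have hf : ∀ i, (f (ι i) : R K) = ar i.val := by
    intro i
    have h : ∃ j, ι j = ι i := ⟨i, rfl⟩
    have h1 : f (ι i) = ⟨ar h.choose.val, ar_mem h3 _⟩ := dif_pos h
    rw [h1, hι h.choose_spec]
  let g : FreeAlt Φ X →ₙₐ[Φ] BS h3 := FreeAlt.lift (BS_alt h3) f
  let g' : FreeAlt Φ X →ₙ+* R K :=
    { toFun := fun a => (g a : R K)
      map_mul' := fun a b => by rw [map_mul]; rfl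
      map_zero' := by rw [map_zero]; rfl
      map_add' := fun a b => by rw [map_add]; rfl }
  have key : theta (g' (tw ι)) ≠ 0 := by
    rw [tw, map_pol]
    have hg : (fun j => g' (FreeAlt.gen (ι (fi j)))) = (ar : ℕ → R K) := by
      funext j
      show ((FreeAlt.lift (BS_alt h3) f (FreeAlt.gen (ι (fi j))) : BS h3) : R K) = ar j
      rw [FreeAlt.lift_gen, hf, ar_fi]
    rw [hg]
    exact theta_ne h3
  obtain ⟨L, hL⟩ : ∃ L : FreeAlt Φ X →+ K, ∀ a, L a = theta (g' a) :=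
    ⟨AddMonoidHom.mk' (fun a => theta (g' a)) (fun a b => by rw [map_add g', map_add]), fun a => rfl⟩
  refine ⟨L, ?_, by rw [hL]; exact key⟩
  intro r a
  rw [hL, hL]
  show theta (g (r • a) : R K) = φ r * theta (g a : R K)
  rw [map_smul]
  show theta (φ r • (g a : R K)) = _
  rw [map_smul, smul_eq_mul]

/-- If `3` is not divisible by `9` then some residue field of characteristic three kills the annihilator of `3`. -/
lemma exists_max (h : ¬ ∃ b : Φ, (3 : Φ) = 9 * b) :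
    ∃ M : Ideal Φ, M.IsMaximal ∧ (3 : Φ) ∈ M ∧ ∀ a : Φ, 3 * a = 0 → a ∈ M := by
  let J : Ideal Φ := Ideal.span {3} ⊔ LinearMap.ker (LinearMap.lsmul Φ Φ 3)
  have hJ : J ≠ ⊤ := by
    intro hT
    have h1 : (1 : Φ) ∈ J := by rw [hT]; trivial
    obtain ⟨u, hu, a, ha, hua⟩ := Submodule.mem_sup.mp h1
    obtain ⟨b, rfl⟩ := Ideal.mem_span_singleton'.mp hu
    have ha' : 3 * a = 0 := ha
    apply h
    refine ⟨b, ?_⟩
    have h2 : (3 : Φ) = 3 * (b * 3 + a) := by rw [hua, mul_one]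
    have h4 : 3 * (b * 3 + a) = 9 * b + 3 * a := by ring
    rw [h4, ha', add_zero] at h2
    exact h2
  obtain ⟨M, hM, hJM⟩ := Ideal.exists_le_maximal J hJ
  refine ⟨M, hM, hJM (Submodule.mem_sup_left (Ideal.mem_span_singleton_self 3)), fun a ha => ?_⟩
  exact hJM (Submodule.mem_sup_right ha)

theorem not_flat (h : ¬ ∃ b : Φ, (3 : Φ) = 9 * b) (ι : Fin 6 → X) (hι : Function.Injective ι) :
    ¬ Module.Flat Φ (FreeAlt Φ X) := by
  intro hfl
  obtain ⟨M, hM, h3M, hann⟩ := exists_max h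
  letI : Field (Φ ⧸ M) := Ideal.Quotient.field M
  have h3 : (3 : Φ ⧸ M) = 0 := by
    have : Ideal.Quotient.mk M (3 : Φ) = 0 := Ideal.Quotient.eq_zero_iff_mem.mpr h3M
    rw [← this, map_ofNat]
  obtain ⟨L, hL, hne⟩ := functional h3 (Ideal.Quotient.mk M) ι hι
  apply hne
  have h4 : ∑ _i : Fin 1, (3 : Φ) • (tw ι : FreeAlt Φ X) = 0 := by
    rw [Fin.sum_univ_one]
    have h5 := three_tw (Φ := Φ) ι
    rw [← Int.cast_smul_eq_zsmul Φ] at h5
    simpa using h5
  obtain ⟨κ, a, y, hx, ha⟩ := Module.Flat.isTrivialRelation_of_sum_smul_eq_zero h4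
  have hx0 : (tw ι : FreeAlt Φ X) = ∑ j, a 0 j • y j := hx 0
  rw [hx0, map_sum]
  apply Finset.sum_eq_zero
  intro j _
  rw [hL]
  have h6 := ha j
  rw [Fin.sum_univ_one] at h6
  rw [Ideal.Quotient.eq_zero_iff_mem.mpr (hann _ h6), zero_mul]

theorem tw_ne (ι : Fin 6 → X) (hι : Function.Injective ι) : (tw ι : FreeAlt ℤ X) ≠ 0 := by
  intro h
  have h0 : (3 : ZMod 3) = 0 := by decide
  haveI : Fact (Nat.Prime 3) := ⟨by norm_num⟩
  obtain ⟨L, -, hne⟩ := functional (Φ := ℤ) (K := ZMod 3) h0 (Int.castRingHom (ZMod 3)) ι hι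
  apply hne
  rw [h, map_zero]

end

end Q12.AltTor
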