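import Pool.Agent.Q12.AltTor.Pol
import Pool.Agent.Helper805.Nuc.SuperK

/-! An alternative (super-commutative) superalgebra of dimension 18 over a field of characteristic three. -/

set_option autoImplicit false

namespace Q12.AltTor

open Pool.Agent.Helper805.Nuc.SuperK

/-- the multiplication table: the basis is `z, y, x, zy, zx, yx, ...`; `2` stands for `-1` -/
def tab : List (List (List (ℕ × ℕ))) :=
  [[[], [(3, 1)], [(4, 1)], [(6, 1)], [(8, 1)], [], [], [], [], [(13, 1)], [], [(14, 1)], [], [(15, 1)], [(16, 1)], [], [], []],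
   [[(3, 2)], [], [(5, 1)], [(7, 1)], [], [(9, 1)], [], [], [(12, 1)], [], [(14, 1)], [], [(15, 2)], [], [], [], [(17, 2)], []],
   [[(4, 2)], [(5, 2)], [], [], [(10, 1)], [(11, 1)], [(12, 1)], [(13, 2)], [], [], [], [], [(16, 1)], [], [], [(17, 1)], [], []],
   [[(6, 1)], [(7, 1)], [], [], [(12, 1)], [(13, 2)], [], [], [], [], [(16, 2)], [], [], [], [(17, 2)], [], [], []],
   [[(8, 1)], [], [(10, 1)], [(12, 1)], [], [(14, 2)], [], [(15, 1)], [], [], [], [], [], [(17, 1)], [], [], [], []],
   [[], [(9, 1)], [(11, 1)], [(13, 2)], [(14, 2)], [], [(15, 1)], [], [(16, 1)], [], [], [], [], [], [], [], [], []],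
   [[], [], [(12, 2)], [], [], [(15, 1)], [], [], [], [], [], [(17, 1)], [], [], [], [], [], []],
   [[], [], [(13, 1)], [], [(15, 1)], [], [], [], [], [], [], [], [], [], [], [], [], []],
   [[], [(12, 2)], [], [], [], [(16, 1)], [], [], [], [(17, 2)], [], [], [], [], [], [], [], []],
   [[(13, 2)], [], [], [], [], [], [], [], [(17, 1)], [], [], [], [], [], [], [], [], []],
   [[], [(14, 2)], [], [(16, 2)], [], [], [], [], [], [], [], [], [], [], [], [], [], []],
   [[(14, 2)], [], [], [], [], [], [(17, 2)], [], [], [], [], [], [], [], [], [], [], []],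
   [[], [(15, 2)], [(16, 1)], [], [], [], [], [], [], [], [], [], [], [], [], [], [], []],
   [[(15, 1)], [], [], [], [(17, 1)], [], [], [], [], [], [], [], [], [], [], [], [], []],
   [[(16, 1)], [], [], [(17, 2)], [], [], [], [], [], [], [], [], [], [], [], [], [], []],
   [[], [], [(17, 2)], [], [], [], [], [], [], [], [], [], [], [], [], [], [], []],
   [[], [(17, 1)], [], [], [], [], [], [], [], [], [], [], [], [], [], [], [], []],
   [[], [], [], [], [], [], [], [], [], [], [], [], [], [], [], [], [], []]]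

/-- parities -/
def parL : List ℕ := [1, 1, 1, 0, 0, 0, 1, 1, 1, 1, 1, 1, 0, 0, 0, 1, 1, 0]

/-- product of basis elements -/
def T18 (i j : ℕ) : List (ℕ × ℕ) := (tab.getD i []).getD j []

/-- the table -/
def D18 : Data where
  N := 18
  T := T18
  par := fun i => parL.getD i 0

/-- multiply the coefficients -/
def scl (a : ℕ) : List (ℕ × ℕ) → List (ℕ × ℕ)
  | [] => []
  | q :: L => (q.1, Nat.mul a q.2) :: scl a L

/-- linear extension -/
def bnd (f : ℕ → List (ℕ × ℕ)) : List (ℕ × ℕ) → List (ℕ × ℕ)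
  | [] => []
  | q :: L => scl q.2 (f q.1) ++ bnd f L

/-- sum of the coefficients with key `k` -/
def ks (k : ℕ) : List (ℕ × ℕ) → ℕ
  | [] => 0
  | q :: L => cond (Nat.beq q.1 k) (Nat.add q.2 (ks k L)) (ks k L)

/-- all coefficients are divisible by three -/
def z3 (L : List (ℕ × ℕ)) : Bool := L.all fun p => Nat.beq (Nat.mod (ks p.1 L) 3) 0

/-- the associator of basis elements -/
def AS (i j k : ℕ) : List (ℕ × ℕ) := bnd (fun m => T18 m k) (T18 i j) ++ scl 2 (bnd (fun m => T18 i m) (T18 j k))

/-- residue of the sign -/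
def sr (i j : ℕ) : ℕ := cond (Nat.beq (Nat.mul (D18.par i) (D18.par j)) 1) 2 1

/-- the check of super-alternativity -/
def chkB : Bool := (List.range 18).all fun i => (List.range 18).all fun j => (List.range 18).all fun k =>
  z3 (AS i j k ++ scl (sr i j) (AS j i k)) && z3 (AS i j k ++ scl (sr j k) (AS i k j))

theorem chkB_ok : chkB = true := by decide +kernel

/-- the check of the parities and of the indices -/
def chkP : Bool := (List.range 18).all fun i => (Nat.ble (D18.par i) 1) && (List.range 18).all fun j =>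
  (T18 i j).all fun p => Nat.beq (D18.par p.1) (Nat.mod (Nat.add (D18.par i) (D18.par j)) 2) && Nat.blt p.1 18

theorem chkP_ok : chkP = true := by decide +kernel

section
variable (K : Type) [Field K]

lemma cf_scl (k a : ℕ) (L : List (ℕ × ℕ)) : cf K k (scl a L) = (a : K) * cf K k L := by
  induction L with
  | nil => simp [scl, cf]
  | cons q L ih =>
    rw [scl, cf, cf, ih]
    have h : Nat.mul a q.2 = a * q.2 := rfl
    simp only [h]
    split_ifs
    · push_cast; ring
    · ring

lemma cf_bnd (k : ℕ) (f : ℕ → List (ℕ × ℕ)) (L : List (ℕ × ℕ)) :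
    cf K k (bnd f L) = (L.map fun q => (q.2 : K) • cf K k (f q.1)).sum := by
  induction L with
  | nil => simp [bnd, cf]
  | cons q L ih => rw [bnd, cf_append, cf_scl, ih, List.map_cons, List.sum_cons, smul_eq_mul]

lemma ks_cast (k : ℕ) (L : List (ℕ × ℕ)) : ((ks k L : ℕ) : K) = cf K k L := by
  induction L with
  | nil => simp [ks, cf]
  | cons q L ih =>
    rw [ks, cf]
    by_cases h : q.1 = k
    · have h2 : Nat.beq q.1 k = true := by rw [h]; exact Nat.beq_refl k
      rw [h2, if_pos h, cond_true, ← ih]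
      have h3 : Nat.add q.2 (ks k L) = q.2 + ks k L := rfl
      rw [h3]; push_cast; ring
    · have h2 : Nat.beq q.1 k = false := by
        cases hb : Nat.beq q.1 k with
        | false => rfl
        | true => exact absurd (Nat.eq_of_beq_eq_true hb) h
      rw [h2, if_neg h, cond_false, ← ih, zero_add]

variable {K}

lemma cf_z3 (h3 : (3 : K) = 0) {L : List (ℕ × ℕ)} (h : z3 L = true) (k : ℕ) : cf K k L = 0 := by
  by_cases hk : ∃ p ∈ L, p.1 = k
  · obtain ⟨p, hp, rfl⟩ := hk
    rw [← ks_cast]
    have h1 := List.all_eq_true.mp h p hp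
    have h2 : (ks p.1 L) % 3 = 0 := Nat.eq_of_beq_eq_true h1
    obtain ⟨m, hm⟩ := Nat.dvd_of_mod_eq_zero h2
    rw [hm]
    push_cast
    rw [h3, zero_mul]
  · push Not at hk
    exact cf_eq_zero_of_notMem K k L hk

lemma chkP_at {i j : ℕ} (hi : i < 18) (hj : j < 18) : ∀ p ∈ T18 i j,
    D18.par p.1 = (D18.par i + D18.par j) % 2 ∧ p.1 < 18 := by
  intro p hp
  have h1 := List.all_eq_true.mp chkP_ok i (List.mem_range.mpr hi)
  rw [Bool.and_eq_true] at h1
  have h2 := List.all_eq_true.mp h1.2 j (List.mem_range.mpr hj)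
  have h3 := List.all_eq_true.mp h2 p hp
  rw [Bool.and_eq_true] at h3
  refine ⟨Nat.eq_of_beq_eq_true h3.1, ?_⟩
  have h4 := h3.2
  simp only [Nat.blt] at h4
  exact Nat.le_of_ble_eq_true h4

lemma two_eq (h3 : (3 : K) = 0) : ((2 : ℕ) : K) = -1 := by
  push_cast
  have : (2 : K) = 3 - 1 := by norm_num
  rw [this, h3, zero_sub]

lemma cf_AS (h3 : (3 : K) = 0) {i j k : ℕ} (hi : i < 18) (hj : j < 18) (hk : k < 18) (l : ℕ) :
    cf K l (AS i j k) = D18.A K i j k l := by
  have e1 : (∑ m : Fin 18, D18.c K i j m * D18.c K m k l) =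
      ((T18 i j).map fun q => (q.2 : K) • cf K l (T18 q.1 k)).sum :=
    sum_cf K (N := 18) (T18 i j) (fun p hp => (chkP_at hi hj p hp).2) (fun m => cf K l (T18 m k))
  have e2 : (∑ m : Fin 18, D18.c K j k m * D18.c K i m l) =
      ((T18 j k).map fun q => (q.2 : K) • cf K l (T18 i q.1)).sum :=
    sum_cf K (N := 18) (T18 j k) (fun p hp => (chkP_at hj hk p hp).2) (fun m => cf K l (T18 i m))
  show _ = (∑ m : Fin 18, D18.c K i j m * D18.c K m k l) - ∑ m : Fin 18, D18.c K j k m * D18.c K i m l
  rw [AS, cf_append, cf_scl, cf_bnd, cf_bnd, e1, e2, two_eq h3]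
  ring

lemma sr_eq (h3 : (3 : K) = 0) (i j : ℕ) : ((sr i j : ℕ) : K) = D18.sg K i j := by
  unfold sr Data.sg
  by_cases h : D18.par i * D18.par j = 1
  · have h2 : Nat.beq (Nat.mul (D18.par i) (D18.par j)) 1 = true := by
      have h4 : Nat.mul (D18.par i) (D18.par j) = 1 := h
      rw [h4]; rfl
    rw [h2, if_pos h, cond_true]
    exact two_eq h3
  · have h2 : Nat.beq (Nat.mul (D18.par i) (D18.par j)) 1 = false := by
      cases hb : Nat.beq (Nat.mul (D18.par i) (D18.par j)) 1 with
      | false => rfl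
      | true => exact absurd (Nat.eq_of_beq_eq_true hb) h
    rw [h2, if_neg h, cond_false]
    simp

lemma good18 (h3 : (3 : K) = 0) : D18.Good K where
  par_le := by
    intro i hi
    have h1 := List.all_eq_true.mp chkP_ok i (List.mem_range.mpr hi)
    rw [Bool.and_eq_true] at h1
    have := Nat.le_of_ble_eq_true h1.1
    omega
  par_add := by
    intro i hi j hj p hp
    exact (chkP_at hi hj p hp).1
  left := by
    intro i hi j hj k hk l _
    have h1 := List.all_eq_true.mp chkB_ok i (List.mem_range.mpr hi)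
    have h2 := List.all_eq_true.mp h1 j (List.mem_range.mpr hj)
    have h4 := List.all_eq_true.mp h2 k (List.mem_range.mpr hk)
    rw [Bool.and_eq_true] at h4
    have h5 := cf_z3 h3 h4.1 l
    rw [cf_append, cf_scl, sr_eq h3, cf_AS h3 hi hj hk, cf_AS h3 hj hi hk] at h5
    exact h5
  right := by
    intro i hi j hj k hk l _
    have h1 := List.all_eq_true.mp chkB_ok i (List.mem_range.mpr hi)
    have h2 := List.all_eq_true.mp h1 j (List.mem_range.mpr hj)
    have h4 := List.all_eq_true.mp h2 k (List.mem_range.mpr hk)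
    rw [Bool.and_eq_true] at h4
    have h5 := cf_z3 h3 h4.2 l
    rw [cf_append, cf_scl, sr_eq h3, cf_AS h3 hi hj hk, cf_AS h3 hi hk hj] at h5
    exact h5

end

end Q12.AltTor
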