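import Pool.Agent.Q12.AltTor.Data

/-! The multilinear polynomial in six variables obtained from the polynomial in three odd variables. -/

set_option autoImplicit false

namespace Q12.AltTor

open Pool.Agent.Helper805.Nuc.Tens Pool.Agent.Helper805.Nuc.Ext
open T

/-- a number as an index below six -/
def fi (k : ℕ) : Fin 6 := ⟨k % 6, Nat.mod_lt _ (by norm_num)⟩

/-- all labellings of the leaves: a leaf `i` becomes `2 i` or `2 i + 1` -/
def lab : T → List (T × List (Fin 6))
  | g i => [(g (2 * i), [fi (2 * i)]), (g (2 * i + 1), [fi (2 * i + 1)])]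
  | n a b => (lab a).flatMap fun p => (lab b).map fun q => (n p.1 q.1, p.2 ++ q.2)

/-- the sign of a list of indices (zero for lists which are not arrangements of `0,...,5`) -/
noncomputable def tau (l : List (Fin 6)) : ℤ := top ℤ 6 (E ℤ 6 l)

section
variable {A : Type} [NonUnitalNonAssocRing A]

/-- the multilinear polynomial -/
noncomputable def pol (F : List (ℤ × T)) (a : ℕ → A) : A :=
  (F.map fun p => p.1 • ((lab p.2).map fun q => tau q.2 • ev a q.1).sum).sum

/-- the generic odd elements -/
noncomputable def od (a : ℕ → A) (i : ℕ) : TS A 6 :=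
  te (a (2 * i)) [fi (2 * i)] + te (a (2 * i + 1)) [fi (2 * i + 1)]

lemma od_mem (a : ℕ → A) (i : ℕ) : od a i ∈ PP (A := A) (n := 6) 1 :=
  AddSubgroup.add_mem _ (te_mem _ [fi (2 * i)]) (te_mem _ [fi (2 * i + 1)])

lemma list_sum_mul {ι : Type} (l : List ι) (f : ι → TS A 6) (y : TS A 6) :
    (l.map f).sum * y = (l.map fun i => f i * y).sum := by
  induction l with
  | nil => simp
  | cons i l ih => simp [add_mul, ih]

lemma list_mul_sum {ι : Type} (l : List ι) (f : ι → TS A 6) (y : TS A 6) :
    y * (l.map f).sum = (l.map fun i => y * f i).sum := by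
  induction l with
  | nil => simp
  | cons i l ih => simp [mul_add, ih]

lemma sum_flatMap {ι κ : Type} {M : Type} [AddCommMonoid M] (l : List ι) (f : ι → List κ) (h : κ → M) :
    ((l.flatMap f).map h).sum = (l.map fun i => ((f i).map h).sum).sum := by
  induction l with
  | nil => simp
  | cons i l ih => simp [ih]

lemma ev_od (a : ℕ → A) : ∀ t : T, ev (od a) t = ((lab t).map fun p => te (ev a p.1) p.2).sum
  | g i => by simp [lab, ev, od]
  | n s t => by
      show ev (od a) s * ev (od a) t = _
      rw [ev_od a s, ev_od a t, lab, sum_flatMap, list_sum_mul]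
      congr 1
      apply List.map_congr_left
      intro p _
      rw [list_mul_sum, List.map_map]
      congr 1
      apply List.map_congr_left
      intro q _
      exact te_mul _ _ _ _

lemma ext_te' (a : A) (l : List (Fin 6)) : ext (te a l) = tau l • a := by
  show (TensorProduct.rid ℤ A) (TensorProduct.map LinearMap.id (top ℤ 6) (a ⊗ₜ[ℤ] E ℤ 6 l)) = tau l • a
  rw [TensorProduct.map_tmul, TensorProduct.rid_tmul]
  rfl

lemma ext_ev (a : ℕ → A) (t : T) : ext (ev (od a) t) = ((lab t).map fun q => tau q.2 • ev a q.1).sum := by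
  rw [ev_od, map_list_sum, List.map_map]
  have : (ext ∘ fun p : T × List (Fin 6) => te (ev a p.1) p.2) = fun q => tau q.2 • ev a q.1 := by
    funext q
    exact ext_te' _ _
  rw [this]

lemma ext_evL (a : ℕ → A) (F : List (ℤ × T)) : ext (evL (od a) F) = pol F a := by
  induction F with
  | nil => simp [evL, pol]
  | cons p F ih =>
    rw [evL_cons, map_add, ih, map_zsmul, ext_ev]
    simp [pol]

/-- Three times the polynomial vanishes in every alternative ring. -/
theorem three_pol (hA : IsAlt A) (a : ℕ → A) : (3 : ℤ) • pol FF a = 0 := by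
  have h := sound (od a) (superAlt (n := 6) hA) (od_mem a) check_ok
  have h2 := congrArg ext h
  rw [map_zsmul, ext_evL, map_zero] at h2
  exact h2

end

section hom
variable {A B : Type} [NonUnitalNonAssocRing A] [NonUnitalNonAssocRing B]

lemma map_ev (f : A →ₙ+* B) (a : ℕ → A) : ∀ t : T, f (ev a t) = ev (fun i => f (a i)) t
  | g _ => rfl
  | n s t => by
      show f (ev a s * ev a t) = _
      rw [map_mul, map_ev f a s, map_ev f a t]
      rfl

lemma map_pol (f : A →ₙ+* B) (F : List (ℤ × T)) (a : ℕ → A) : f (pol F a) = pol F (fun i => f (a i)) := by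
  unfold pol
  rw [map_list_sum, List.map_map]
  congr 1
  apply List.map_congr_left
  intro p _
  show f (p.1 • _) = _
  rw [map_zsmul, map_list_sum, List.map_map]
  congr 2
  apply List.map_congr_left
  intro q _
  show f (tau q.2 • _) = _
  rw [map_zsmul, map_ev]

end hom

end Q12.AltTor
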